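import Pool.Agent.X320.DS.Noeth
import Pool.Agent.X320.DS.Trace

/-! The algebra of functions generated by the matrix coefficients of a representation and the
characteristic functions of the cosets of an open subgroup. -/

set_option autoImplicit false
set_option linter.all false

namespace Pool.Agent.X320.RU

open MeasureTheory Topology Pool.Agent.X320.DS

variable {G : Type*} [Group G] {k : Type*} [Field k] {n : ℕ} (ρ : G →* GL (Fin n) k) (W : Subgroup G)

/-- generators -/
def Gen : Set (G → k) :=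
  {f | ∃ a b, f = fun x => (ρ x : Matrix (Fin n) (Fin n) k) a b} ∪
    {f | ∃ q : G ⧸ W, f = Set.indicator {x | (QuotientGroup.mk x : G ⧸ W) = q} 1}

/-- the algebra of functions -/
noncomputable def fn : Subalgebra k (G → k) := Algebra.adjoin k (Gen ρ W)

theorem finite_Gen [Finite (G ⧸ W)] : (Gen ρ W).Finite := by
  refine Set.Finite.union ?_ ?_
  · have h1 : {f : G → k | ∃ a b, f = fun x => (ρ x : Matrix (Fin n) (Fin n) k) a b} =
        Set.range (fun ab : Fin n × Fin n => fun x => (ρ x : Matrix (Fin n) (Fin n) k) ab.1 ab.2) := by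
      ext f
      constructor
      · rintro ⟨a, b, rfl⟩
        exact ⟨(a, b), rfl⟩
      · rintro ⟨⟨a, b⟩, rfl⟩
        exact ⟨a, b, rfl⟩
    rw [h1]
    exact Set.finite_range _
  · have h1 : {f : G → k | ∃ q : G ⧸ W, f = Set.indicator {x | (QuotientGroup.mk x : G ⧸ W) = q} 1} =
        Set.range (fun q : G ⧸ W => (Set.indicator {x | (QuotientGroup.mk x : G ⧸ W) = q} 1 : G → k)) := by
      ext f
      constructor
      · rintro ⟨q, rfl⟩
        exact ⟨q, rfl⟩
      · rintro ⟨q, rfl⟩
        exact ⟨q, rfl⟩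
    rw [h1]
    exact Set.finite_range _

theorem noeth [Finite (G ⧸ W)] : IsNoetherianRing (fn ρ W) := by
  haveI : Algebra.FiniteType k (fn ρ W) := by
    rw [← Subalgebra.fg_iff_finiteType]
    exact ⟨(finite_Gen ρ W).toFinset, by rw [Set.Finite.coe_toFinset]; rfl⟩
  exact Algebra.FiniteType.isNoetherianRing k _

theorem trans_mem (g : G) (F : G → k) (hF : F ∈ fn ρ W) : (fun x => F (g * x)) ∈ fn ρ W := by
  unfold fn at hF
  induction hF using Algebra.adjoin_induction with
  | mem f hf =>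
    rcases hf with ⟨a, b, rfl⟩ | ⟨q, rfl⟩
    · have e : (fun x => (ρ (g * x) : Matrix (Fin n) (Fin n) k) a b) =
          ∑ c : Fin n, ((ρ g : Matrix (Fin n) (Fin n) k) a c) •
            (fun x => (ρ x : Matrix (Fin n) (Fin n) k) c b) := by
        funext x
        rw [Finset.sum_apply, map_mul, Units.val_mul, Matrix.mul_apply]
        rfl
      rw [e]
      exact Subalgebra.sum_mem _ fun c _ => Subalgebra.smul_mem _ (Algebra.subset_adjoin (s := Gen ρ W) (Or.inl ⟨c, b, rfl⟩)) _
    · have e : (fun x => (Set.indicator {x | (QuotientGroup.mk x : G ⧸ W) = q} 1 : G → k) (g * x)) =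
          Set.indicator {x | (QuotientGroup.mk x : G ⧸ W) = g⁻¹ • q} 1 := by
        funext x
        have hiff : (QuotientGroup.mk (g * x) : G ⧸ W) = q ↔ (QuotientGroup.mk x : G ⧸ W) = g⁻¹ • q := by
          rw [eq_inv_smul_iff]
          rfl
        by_cases hx : (QuotientGroup.mk x : G ⧸ W) = g⁻¹ • q
        · rw [Set.indicator_of_mem (show x ∈ {x | (QuotientGroup.mk x : G ⧸ W) = g⁻¹ • q} from hx),
            Set.indicator_of_mem (show g * x ∈ {x | (QuotientGroup.mk x : G ⧸ W) = q} from hiff.2 hx)]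
          rfl
        · rw [Set.indicator_of_notMem (show x ∉ {x | (QuotientGroup.mk x : G ⧸ W) = g⁻¹ • q} from hx),
            Set.indicator_of_notMem (show g * x ∉ {x | (QuotientGroup.mk x : G ⧸ W) = q} from fun h => hx (hiff.1 h))]
      rw [e]
      exact Algebra.subset_adjoin (Or.inr ⟨_, rfl⟩)
  | algebraMap r => exact (fn ρ W).algebraMap_mem r
  | add f f' _ _ h1 h2 => exact (fn ρ W).add_mem h1 h2
  | mul f f' _ _ h1 h2 => exact (fn ρ W).mul_mem h1 h2

section top

variable [TopologicalSpace G] [IsTopologicalGroup G] [TopologicalSpace k] [IsTopologicalRing k]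

theorem isOpen_coset {W : Subgroup G} (hW : IsOpen (W : Set G)) (q : G ⧸ W) :
    IsOpen {x | (QuotientGroup.mk x : G ⧸ W) = q} := by
  obtain ⟨y, rfl⟩ := QuotientGroup.mk_surjective q
  have e : {x : G | (QuotientGroup.mk x : G ⧸ W) = QuotientGroup.mk y} = (fun x => x⁻¹ * y) ⁻¹' (W : Set G) := by
    ext x
    exact QuotientGroup.eq
  rw [e]
  exact hW.preimage (by fun_prop)

theorem isClosed_coset {W : Subgroup G} (hW : IsOpen (W : Set G)) (q : G ⧸ W) :
    IsClosed {x | (QuotientGroup.mk x : G ⧸ W) = q} := by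
  obtain ⟨y, rfl⟩ := QuotientGroup.mk_surjective q
  have e : {x : G | (QuotientGroup.mk x : G ⧸ W) = QuotientGroup.mk y} = (fun x => x⁻¹ * y) ⁻¹' (W : Set G) := by
    ext x
    exact QuotientGroup.eq
  rw [e]
  exact (W.isClosed_of_isOpen hW).preimage (by fun_prop)

theorem cont_mem {W : Subgroup G} (hW : IsOpen (W : Set G)) (hρ : Continuous ρ) (F : G → k) (hF : F ∈ fn ρ W) :
    Continuous F := by
  unfold fn at hF
  induction hF using Algebra.adjoin_induction with
  | mem f hf =>
    rcases hf with ⟨a, b, rfl⟩ | ⟨q, rfl⟩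
    · exact (Units.continuous_val.comp hρ).matrix_elem a b
    · have hclopen : IsClopen {x | (QuotientGroup.mk x : G ⧸ W) = q} := ⟨isClosed_coset hW q, isOpen_coset hW q⟩
      exact (IsClopen.continuous_indicator hclopen continuous_one)
  | algebraMap r => exact continuous_const
  | add f f' _ _ h1 h2 => exact h1.add h2
  | mul f f' _ _ h1 h2 => exact h1.mul h2

end top

/-- a linear functional of the matrix -/
theorem functional_mem (L : Module.End k (Fin n → k) →ₗ[k] k) : (fun x => L (toEnd ρ x)) ∈ fn ρ W := by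
  classical
  have e : (fun x => L (toEnd ρ x)) = ∑ a : Fin n, ∑ b : Fin n,
      (L (Matrix.toLin' (Matrix.single a b 1))) • (fun x => (ρ x : Matrix (Fin n) (Fin n) k) a b) := by
    funext x
    rw [Finset.sum_apply]
    have h1 : toEnd ρ x = ∑ a : Fin n, ∑ b : Fin n,
        (ρ x : Matrix (Fin n) (Fin n) k) a b • Matrix.toLin' (Matrix.single a b (1 : k)) := by
      show Matrix.toLin' (ρ x : Matrix (Fin n) (Fin n) k) = _
      conv_lhs => rw [Matrix.matrix_eq_sum_single (ρ x : Matrix (Fin n) (Fin n) k)]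
      rw [map_sum]
      refine Finset.sum_congr rfl fun a _ => ?_
      rw [map_sum]
      refine Finset.sum_congr rfl fun b _ => ?_
      rw [← map_smul, Matrix.smul_single, smul_eq_mul, mul_one]
    rw [h1, map_sum]
    refine Finset.sum_congr rfl fun a _ => ?_
    rw [map_sum, Finset.sum_apply]
    refine Finset.sum_congr rfl fun b _ => ?_
    rw [map_smul, Pi.smul_apply, smul_eq_mul, smul_eq_mul, mul_comm]
  rw [e]
  exact Subalgebra.sum_mem _ fun a _ => Subalgebra.sum_mem _ fun b _ =>
    Subalgebra.smul_mem _ (Algebra.subset_adjoin (s := Gen ρ W) (Or.inl ⟨a, b, rfl⟩)) _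

/-- A functional which is constant on a subset of positive measure of `W` is constant on a coset of an open
subgroup in `W`. -/
theorem exists_coset_in [TopologicalSpace G] [IsTopologicalGroup G] [CompactSpace G] [MeasurableSpace G]
    [BorelSpace G] [TopologicalSpace k] [IsTopologicalRing k] [T2Space k] (μ : Measure G) [IsProbabilityMeasure μ]
    [μ.IsMulLeftInvariant] {W : Subgroup G} (hW : IsOpen (W : Set G)) (hρ : Continuous ρ)
    (L : Module.End k (Fin n → k) →ₗ[k] k) (c : k) (h : μ {x | x ∈ W ∧ L (toEnd ρ x) = c} ≠ 0) :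
    ∃ H : Subgroup G, IsOpen (H : Set G) ∧ H ≤ W ∧ ∃ x₀ ∈ W, ∀ h ∈ H, L (toEnd ρ (h * x₀)) = c := by
  classical
  haveI : Finite (G ⧸ W) := Subgroup.quotient_finite_of_isOpen _ hW
  haveI := noeth ρ W
  let I : G → k := Set.indicator {x | (QuotientGroup.mk x : G ⧸ W) = QuotientGroup.mk 1} 1
  have hI : I ∈ fn ρ W := Algebra.subset_adjoin (Or.inr ⟨_, rfl⟩)
  have hI0 : ∀ x, (1 - I) x = 0 ↔ x ∈ W := by
    intro x
    have hiff : (QuotientGroup.mk x : G ⧸ W) = QuotientGroup.mk 1 ↔ x ∈ W := by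
      rw [eq_comm, QuotientGroup.eq, inv_one, one_mul]
    by_cases hx : x ∈ W
    · have : I x = 1 := by
        show (Set.indicator {x | (QuotientGroup.mk x : G ⧸ W) = QuotientGroup.mk 1} 1 : G → k) x = 1
        rw [Set.indicator_of_mem (show x ∈ {x | (QuotientGroup.mk x : G ⧸ W) = QuotientGroup.mk 1} from hiff.2 hx)]
        rfl
      rw [Pi.sub_apply, this]
      simp [hx]
    · have : I x = 0 := by
        show (Set.indicator {x | (QuotientGroup.mk x : G ⧸ W) = QuotientGroup.mk 1} 1 : G → k) x = 0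
        rw [Set.indicator_of_notMem (show x ∉ {x | (QuotientGroup.mk x : G ⧸ W) = QuotientGroup.mk 1} from
          fun h => hx (hiff.1 h))]
      rw [Pi.sub_apply, this]
      simp [hx]
  let Φ : G → k := (fun x => L (toEnd ρ x)) - algebraMap k (G → k) c
  have hΦ : Φ ∈ fn ρ W := (fn ρ W).sub_mem (functional_mem ρ W L) ((fn ρ W).algebraMap_mem c)
  have hΦ0 : ∀ x, Φ x = 0 ↔ L (toEnd ρ x) = c := fun x => sub_eq_zero
  obtain ⟨H, hH, x₀, hx₀⟩ := exists_coset μ (fn ρ W) (fun f hf => isClosed_singleton.preimage (cont_mem ρ hW hρ f hf))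
    (fun g f hf => trans_mem ρ W g f hf) {Φ, 1 - I} (by
      rintro f (rfl | rfl)
      · exact hΦ
      · exact (fn ρ W).sub_mem (fn ρ W).one_mem hI) (by
      have e : {x | ∀ f ∈ ({Φ, 1 - I} : Set (G → k)), f x = 0} = {x | x ∈ W ∧ L (toEnd ρ x) = c} := by
        ext x
        constructor
        · intro hx
          exact ⟨(hI0 x).1 (hx _ (Or.inr rfl)), (hΦ0 x).1 (hx _ (Or.inl rfl))⟩
        · rintro ⟨h1, h2⟩ f (rfl | rfl)
          · exact (hΦ0 x).2 h2
          · exact (hI0 x).2 h1
      rw [e]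
      exact h)
  have hxW : ∀ h ∈ H, h * x₀ ∈ W := fun h hh => (hI0 _).1 (hx₀ h hh _ (Or.inr rfl))
  have hx₀W : x₀ ∈ W := by
    have := hxW 1 H.one_mem
    rwa [one_mul] at this
  refine ⟨H, hH, fun h hh => ?_, x₀, hx₀W, fun h hh => (hΦ0 _).1 (hx₀ h hh _ (Or.inl rfl))⟩
  have := W.mul_mem (hxW h hh) (W.inv_mem hx₀W)
  rwa [mul_assoc, mul_inv_cancel, mul_one] at this

end Pool.Agent.X320.RU
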