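import Pool.Agent.X320.RU.Padic

/-! The bound in terms of the number of types of minimal stable subspaces. -/

set_option autoImplicit false
set_option linter.all false

namespace Pool.Agent.X320.RU

open Module MeasureTheory Topology Pool.Agent.X320.DS

variable {Γ : Type*} [Group Γ] {k : Type*} [Field k] {n : ℕ} (ρ : Γ →* GL (Fin n) k)

/-- stable under the subgroup `W` -/
def StableOn (W : Subgroup Γ) (S : Submodule k (Fin n → k)) : Prop :=
  ∀ w ∈ W, ∀ s ∈ S, (ρ w : Matrix (Fin n) (Fin n) k).mulVec s ∈ S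

/-- minimal among the nonzero subspaces which are stable under `W` -/
def MinStable (W : Subgroup Γ) (S : Submodule k (Fin n → k)) : Prop :=
  S ≠ ⊥ ∧ StableOn ρ W S ∧ ∀ S' ≤ S, StableOn ρ W S' → S' = ⊥ ∨ S' = S

/-- there is a nonzero `W`-linear map from `S` to `S'` -/
def Linked (W : Subgroup Γ) (S S' : Submodule k (Fin n → k)) : Prop :=
  ∃ φ : (Fin n → k) →ₗ[k] (Fin n → k), (∀ s ∈ S, φ s ∈ S') ∧ (∃ s ∈ S, φ s ≠ 0) ∧
    ∀ w ∈ W, ∀ s ∈ S, φ ((ρ w : Matrix (Fin n) (Fin n) k).mulVec s) =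
      (ρ w : Matrix (Fin n) (Fin n) k).mulVec (φ s)

/-- among `d + 1` minimal stable subspaces of an open normal subgroup two are isomorphic -/
def TypesLE [TopologicalSpace Γ] (d : ℕ) : Prop :=
  ∀ W : Subgroup Γ, W.Normal → IsOpen (W : Set Γ) → ∀ S : Fin (d + 1) → Submodule k (Fin n → k),
    (∀ i, MinStable ρ W (S i)) → ∃ i j, i ≠ j ∧ Linked ρ W (S i) (S j)

theorem stable_algOn {W : Subgroup Γ} {S : Submodule k (Fin n → k)} (hS : StableOn ρ W S)
    {a : End k (Fin n → k)} (ha : a ∈ algOn ρ W) : ∀ v ∈ S, a v ∈ S := by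
  refine Algebra.adjoin_induction (p := fun a _ => ∀ v ∈ S, a v ∈ S) ?_ ?_ ?_ ?_ ha
  · rintro _ ⟨w, hw, rfl⟩ v hv
    rw [toEnd_apply]
    exact hS w hw v hv
  · intro r v hv
    rw [Module.algebraMap_end_apply]
    exact S.smul_mem r hv
  · intro x y _ _ hx hy v hv
    exact S.add_mem (hx v hv) (hy v hv)
  · intro x y _ _ hx hy v hv
    exact hx _ (hy v hv)

theorem minStable_of_simple {W : Subgroup Γ} (S : Submodule (AR ρ W) (Fin n → k)) (hS : IsSimpleModule (AR ρ W) S) :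
    MinStable ρ W (S.restrictScalars k) := by
  rw [isSimpleModule_iff_isAtom] at hS
  refine ⟨?_, ?_, ?_⟩
  · intro h
    apply hS.1
    rw [eq_bot_iff]
    intro v hv
    have : v ∈ S.restrictScalars k := hv
    rw [h] at this
    exact this
  · intro w hw s hs
    have h1 := S.smul_mem (mk ρ (toEnd ρ w) (mem_algOn ρ hw)) hs
    rwa [mk_smul, toEnd_apply] at h1
  · intro S' hle hst
    let S'' : Submodule (AR ρ W) (Fin n → k) :=
      { carrier := S'
        add_mem' := fun h1 h2 => S'.add_mem h1 h2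
        zero_mem' := S'.zero_mem
        smul_mem' := fun a v hv => stable_algOn ρ hst (val_mem ρ a) v hv }
    have hle' : S'' ≤ S := fun v hv => hle hv
    rcases hS.le_iff.1 hle' with h | h
    · left
      rw [eq_bot_iff]
      intro v hv
      have : v ∈ S'' := hv
      rw [h] at this
      exact this
    · right
      ext v
      constructor
      · intro hv
        exact hle hv
      · intro hv
        have : v ∈ S'' := by rw [h]; exact hv
        exact this

theorem equiv_of_linked {W : Subgroup Γ} (S S' : Submodule (AR ρ W) (Fin n → k)) [IsSimpleModule (AR ρ W) S]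
    [IsSimpleModule (AR ρ W) S'] (h : Linked ρ W (S.restrictScalars k) (S'.restrictScalars k)) :
    Nonempty (S ≃ₗ[AR ρ W] S') := by
  obtain ⟨φ, h1, ⟨s, hs, hne⟩, h2⟩ := h
  have key : ∀ a ∈ algOn ρ W, ∀ v ∈ S, a v ∈ S ∧ φ (a v) = a (φ v) := by
    intro a ha
    refine Algebra.adjoin_induction (p := fun a _ => ∀ v ∈ S, a v ∈ S ∧ φ (a v) = a (φ v)) ?_ ?_ ?_ ?_ ha
    · rintro _ ⟨w, hw, rfl⟩ v hv
      refine ⟨?_, ?_⟩
      · exact S.smul_mem (mk ρ (toEnd ρ w) (mem_algOn ρ hw)) hv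
      · rw [toEnd_apply, toEnd_apply]
        exact h2 w hw v hv
    · intro r v hv
      rw [Module.algebraMap_end_apply, Module.algebraMap_end_apply, map_smul]
      exact ⟨(S.restrictScalars k).smul_mem r hv, rfl⟩
    · intro x y _ _ hx hy v hv
      refine ⟨S.add_mem (hx v hv).1 (hy v hv).1, ?_⟩
      rw [LinearMap.add_apply, map_add, (hx v hv).2, (hy v hv).2, LinearMap.add_apply]
    · intro x y _ _ hx hy v hv
      refine ⟨(hx _ (hy v hv).1).1, ?_⟩
      rw [Module.End.mul_apply, (hx _ (hy v hv).1).2, (hy v hv).2, Module.End.mul_apply]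
  let ψ : S →ₗ[AR ρ W] S' :=
    { toFun := fun s => ⟨φ s.1, h1 s.1 s.2⟩
      map_add' := fun s t => Subtype.ext (map_add φ s.1 t.1)
      map_smul' := fun a s => Subtype.ext (key (val ρ a) (val_mem ρ a) s.1 s.2).2 }
  have hψ : ψ ≠ 0 := by
    intro h
    apply hne
    have := congrArg Subtype.val (LinearMap.congr_fun h ⟨s, hs⟩)
    exact this
  exact ⟨LinearEquiv.ofBijective ψ (LinearMap.bijective_of_ne_zero hψ)⟩

theorem card_le_types [TopologicalSpace Γ] {d : ℕ} (hd : TypesLE ρ d) (W : Subgroup Γ) [W.Normal]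
    (hW : IsOpen (W : Set Γ)) (S : Submodule (AR ρ W) (Fin n → k)) (hS : IsSimpleModule (AR ρ W) S)
    [Finite (Γ ⧸ stab (cr ρ W) S)] : Nat.card (Γ ⧸ stab (cr ρ W) S) ≤ d := by
  classical
  by_contra hcon
  push Not at hcon
  haveI := Fintype.ofFinite (Γ ⧸ stab (cr ρ W) S)
  have h1 : Fintype.card (Fin (d + 1)) ≤ Fintype.card (Γ ⧸ stab (cr ρ W) S) := by
    rw [Fintype.card_fin, ← Nat.card_eq_fintype_card]
    exact hcon
  obtain ⟨f⟩ := Function.Embedding.nonempty_of_card_le h1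
  obtain ⟨i, j, hij, hl⟩ := hd W inferInstance hW
    (fun i => (sh (TT ρ) (cr ρ W) (TT_smul ρ W) S (f i).out).restrictScalars k)
    (fun i => minStable_of_simple ρ _ (simple_sh (TT ρ) (cr ρ W) (TT_smul ρ W) S (f i).out))
  haveI := simple_sh (TT ρ) (cr ρ W) (TT_smul ρ W) S (f i).out
  haveI := simple_sh (TT ρ) (cr ρ W) (TT_smul ρ W) S (f j).out
  obtain ⟨e⟩ := equiv_of_linked ρ _ _ hl
  have h2 := mem_stab_of_equiv (TT ρ) (cr ρ W) (TT_smul ρ W) S (f i).out (f j).out e
  have h3 := QuotientGroup.eq.2 h2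
  rw [QuotientGroup.out_eq', QuotientGroup.out_eq'] at h3
  exact hij (f.injective h3.symm)

section meas

variable [TopologicalSpace Γ] [IsTopologicalGroup Γ] [CompactSpace Γ] [MeasurableSpace Γ] [BorelSpace Γ]
  (μ : Measure Γ) [IsProbabilityMeasure μ] [μ.IsMulLeftInvariant]

theorem meas_index (H : Subgroup Γ) [Finite (Γ ⧸ H)] : 1 ≤ (Nat.card (Γ ⧸ H) : ℝ) * μ.real H := by
  classical
  haveI := Fintype.ofFinite (Γ ⧸ H)
  have h1 : μ.real (Set.univ : Set Γ) ≤ ∑ q : Γ ⧸ H, μ.real {x | (QuotientGroup.mk x : Γ ⧸ H) = q} := by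
    have e : (Set.univ : Set Γ) = ⋃ q ∈ (Finset.univ : Finset (Γ ⧸ H)), {x | (QuotientGroup.mk x : Γ ⧸ H) = q} := by
      ext x
      simp
    rw [e]
    exact measureReal_biUnion_finset_le _ _
  have h2 : ∀ q : Γ ⧸ H, μ.real {x | (QuotientGroup.mk x : Γ ⧸ H) = q} = μ.real H := by
    intro q
    have e : (fun x => q.out * x) ⁻¹' {x | (QuotientGroup.mk x : Γ ⧸ H) = q} = H := by
      ext x
      rw [Set.mem_preimage]
      show (QuotientGroup.mk (q.out * x) : Γ ⧸ H) = q ↔ x ∈ H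
      constructor
      · intro h
        have h2 : (QuotientGroup.mk q.out : Γ ⧸ H) = QuotientGroup.mk (q.out * x) := by
          rw [QuotientGroup.out_eq', h]
        have h3 := QuotientGroup.eq.1 h2
        rwa [inv_mul_cancel_left] at h3
      · intro h
        conv_rhs => rw [← QuotientGroup.out_eq' q]
        rw [eq_comm, QuotientGroup.eq, inv_mul_cancel_left]
        exact h
    rw [measureReal_def, measureReal_def, ← e, measure_preimage_mul]
  rw [Finset.sum_congr rfl fun q _ => h2 q, Finset.sum_const, nsmul_eq_mul,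
      Finset.card_univ, ← Nat.card_eq_fintype_card, probReal_univ] at h1
  exact h1

theorem meet_stab {Z : Set Γ} (hZm : MeasurableSet Z) {H : Subgroup Γ} [Finite (Γ ⧸ H)] (hH : MeasurableSet (H : Set Γ))
    {d : ℕ} (hcard : Nat.card (Γ ⧸ H) ≤ d) (hμ : (1 - μ.real Z) * d < 1) : μ (Z ∩ (H : Set Γ)) ≠ 0 := by
  intro h0
  have hmeas := meas_index μ H
  have h1 : μ.real (Z ∪ H) + μ.real (Z ∩ H) = μ.real Z + μ.real H :=
    measureReal_union_add_inter hH
  have h2 : μ.real (Z ∩ H) = 0 := by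
    rw [measureReal_def, h0]
    rfl
  have h3 : μ.real (Z ∪ H) ≤ 1 := measureReal_le_one
  have h4 : μ.real H ≤ 1 - μ.real Z := by linarith
  have hH0 : 0 ≤ μ.real H := measureReal_nonneg
  have h5 : (Nat.card (Γ ⧸ H) : ℝ) ≤ d := by exact_mod_cast hcard
  have h6 : (1 : ℝ) ≤ d * μ.real H := hmeas.trans (mul_le_mul_of_nonneg_right h5 hH0)
  have h7 : (d : ℝ) * μ.real H ≤ d * (1 - μ.real Z) := mul_le_mul_of_nonneg_left h4 (Nat.cast_nonneg _)
  linarith

variable [IsAlgClosed k] [CharZero k] [TopologicalSpace k] [IsTopologicalRing k] [T2Space k]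

/-- the bound by the number of types -/
theorem main_types (hρ : Continuous ρ) (hss : Semisimple ρ) {N : ℕ} (hN : 0 < N) (Z : Set Γ)
    (hZ : ∀ g ∈ Z, (toEnd ρ g ^ N - 1) ^ n = 0) (hZm : MeasurableSet Z) {d : ℕ} (hd : TypesLE ρ d ∨ d = n)
    (hμ : (1 - μ.real Z) * d < 1) :
    ∃ H : Subgroup Γ, IsOpen (H : Set Γ) ∧ ∀ h ∈ H, ρ h = 1 := by
  classical
  refine main_of ρ μ hρ hss hN Z hZ fun W hWn hWo S hS => ?_
  have hle : W ≤ stab (cr ρ W) S := fun w hw =>
    mem_stab (TT ρ) (cr ρ W) (TT_smul ρ W) S w (rr ρ W ⟨w, hw⟩) (rr ρ W ⟨w⁻¹, W.inv_mem hw⟩)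
      (fun v => rfl) (fun v => rfl)
  have hHo : IsOpen (stab (cr ρ W) S : Set Γ) := Subgroup.isOpen_mono hle hWo
  haveI : Finite (Γ ⧸ stab (cr ρ W) S) := Subgroup.quotient_finite_of_isOpen _ hHo
  refine meet_stab μ hZm hHo.measurableSet ?_ hμ
  rcases hd with hd | rfl
  · exact card_le_types ρ hd W hWo S hS
  · have := card_le (TT ρ) (cr ρ W) (TT_smul ρ W) S
    rwa [finrank_fin_fun] at this

end meas

end Pool.Agent.X320.RU
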