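import Mathlib

/-! Simple modules over algebras and semilinear maps. -/

set_option autoImplicit false
set_option linter.all false

namespace Pool.Agent.X320.RU

open Module

section burnside

variable {k : Type*} [Field k] [IsAlgClosed k] {R : Type*} [Ring R] [Algebra k R] {S : Type*} [AddCommGroup S]
  [Module k S] [Module R S] [IsScalarTower k R S] [FiniteDimensional k S] [IsSimpleModule R S]

/-- Burnside's theorem -/
theorem burnside (x : S →ₗ[k] S) : ∃ r : R, ∀ s : S, r • s = x s := by
  classical
  have hsch := IsSimpleModule.algebraMap_end_bijective_of_isAlgClosed (A := R) (V := S) k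
  let f : End (End R S) S :=
    { toFun := x
      map_add' := x.map_add
      map_smul' := by
        intro φ s
        obtain ⟨c, rfl⟩ := hsch.2 φ
        simp only [Module.algebraMap_end_apply, RingHom.id_apply, Module.End.smul_def, map_smul] }
  obtain ⟨s, hs⟩ := (Module.Finite.fg_top (R := k) (M := S))
  obtain ⟨r, hr⟩ := jacobson_density f s
  refine ⟨r, fun m => ?_⟩
  have hm : m ∈ Submodule.span k (s : Set S) := by rw [hs]; trivial
  refine Submodule.span_induction (p := fun m _ => r • m = x m) ?_ ?_ ?_ ?_ hm
  · intro m hm
    exact (hr m hm).symm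
  · simp
  · intro a b _ _ ha hb
    rw [smul_add, ha, hb, map_add]
  · intro c a _ ha
    rw [map_smul, ← ha]
    rw [← algebraMap_smul R c a, ← algebraMap_smul R c (r • a), smul_smul, smul_smul, Algebra.commutes]

end burnside

section eigen

variable {k : Type*} [Field k] [IsAlgClosed k] {R : Type*} [Ring R] [Algebra k R] {V : Type*} [AddCommGroup V]
  [Module k V] [Module R V] [IsScalarTower k R V] [FiniteDimensional k V] (S : Submodule R V)

/-- A semilinear automorphism which fixes the isomorphism class of the simple module `S` stabilises a submodule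
isomorphic to `S`. -/
theorem eigen [IsSimpleModule R S] (c : R ≃ₐ[k] R) (T : V ≃ₗ[k] V) (hT : ∀ (a : R) (v : V), T (a • v) = c a • T v)
    (A : S ≃ₗ[k] S) (hA : ∀ (a : R) (s : S), A (a • s) = c a • A s) :
    ∃ (f : S →ₗ[R] V) (β : k), Function.Injective f ∧ β ≠ 0 ∧ ∀ s, T (f s) = β • f (A s) := by
  haveI : IsScalarTower k R S := ⟨fun x y z => Subtype.ext (smul_assoc x y z.1)⟩
  haveI : FiniteDimensional k (S →ₗ[R] V) := by
    haveI : FiniteDimensional k S := inferInstanceAs (FiniteDimensional k (S.restrictScalars k))
    exact Module.Finite.of_injective (LinearMap.restrictScalarsₗ k R S V k) (LinearMap.restrictScalars_injective _)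
  haveI hSn : Nontrivial S := IsSimpleModule.nontrivial R S
  haveI : Nontrivial (S →ₗ[R] V) := by
    obtain ⟨s, hs⟩ := exists_ne (0 : S)
    refine ⟨⟨S.subtype, 0, fun h => hs ?_⟩⟩
    have h1 := LinearMap.congr_fun h s
    exact Subtype.ext (by simpa using h1)
  have hA' : ∀ (a : R) (s : S), A.symm (a • s) = c.symm a • A.symm s := by
    intro a s
    apply A.injective
    rw [A.apply_symm_apply, hA, c.apply_symm_apply, A.apply_symm_apply]
  let b : (S →ₗ[R] V) →ₗ[k] (S →ₗ[R] V) :=
    { toFun := fun f =>
        { toFun := fun s => T (f (A.symm s))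
          map_add' := fun x y => by rw [map_add, map_add, map_add]
          map_smul' := fun a s => by
            rw [hA', map_smul, hT, c.apply_symm_apply]
            rfl }
      map_add' := fun f g => by
        ext s
        exact T.map_add _ _
      map_smul' := fun r f => by
        ext s
        exact T.map_smul _ _ }
  have hb : ∀ f s, b f s = T (f (A.symm s)) := fun f s => rfl
  obtain ⟨β, hβ⟩ := Module.End.exists_eigenvalue b
  obtain ⟨f, hf⟩ := hβ.exists_hasEigenvector
  have hf1 : b f = β • f := hf.apply_eq_smul
  have hf0 : f ≠ 0 := hf.2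
  have hinj : Function.Injective f := (LinearMap.injective_or_eq_zero f).resolve_right hf0
  refine ⟨f, β, hinj, ?_, fun s => ?_⟩
  · rintro rfl
    obtain ⟨s, hs⟩ := exists_ne (0 : S)
    have h1 := LinearMap.congr_fun hf1 (A s)
    rw [hb, A.symm_apply_apply, zero_smul, LinearMap.zero_apply] at h1
    have h2 : f s = 0 := by
      have := T.map_eq_zero_iff.1 h1
      exact this
    exact hs (hinj (by rw [h2, map_zero]))
  · have h1 := LinearMap.congr_fun hf1 (A s)
    rw [hb, A.symm_apply_apply] at h1
    exact h1

end eigen

section comps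

variable {k : Type*} [Field k] {R : Type*} [Ring R] [Algebra k R] {V : Type*} [AddCommGroup V]
  [Module k V] [Module R V] [IsScalarTower k R V] [FiniteDimensional k V]

/-- the number of isotypic components -/
theorem card_comps {ι : Type*} [Fintype ι] (f : ι → Submodule R V) (hf : Function.Injective f)
    (h : ∀ i, f i ∈ isotypicComponents R V) : Fintype.card ι ≤ finrank k V := by
  classical
  have hind : iSupIndep f := by
    have h1 := (sSupIndep_isotypicComponents (R := R) (M := V))
    rw [sSupIndep_iff] at h1
    have h2 := h1.comp (f := fun i => (⟨f i, h i⟩ : isotypicComponents R V)) (fun i j hij => hf (congrArg Subtype.val hij))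
    exact h2
  have hind' : iSupIndep fun i => (f i).restrictScalars k := by
    intro i
    rw [disjoint_iff, eq_bot_iff]
    intro x hx
    have h1 := disjoint_iff.1 (hind i)
    have h2 : x ∈ (f i) ⊓ ⨆ j, ⨆ (_ : j ≠ i), f j := by
      refine ⟨hx.1, ?_⟩
      have h3 : (⨆ j, ⨆ (_ : j ≠ i), (f j).restrictScalars k) ≤
          (⨆ j, ⨆ (_ : j ≠ i), f j).restrictScalars k := by
        refine iSup_le fun j => iSup_le fun hj => ?_
        intro y hy
        exact (le_iSup_of_le j (le_iSup_of_le hj le_rfl) : f j ≤ ⨆ j, ⨆ (_ : j ≠ i), f j) hy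
      exact h3 hx.2
    rw [h1] at h2
    exact h2
  have hne : ∀ i, (f i).restrictScalars k ≠ ⊥ := by
    intro i h0
    have h1 := bot_lt_isotypicComponents (h i)
    apply h1.ne'
    rw [eq_bot_iff]
    intro x hx
    have : x ∈ (f i).restrictScalars k := hx
    rw [h0] at this
    exact this
  have h3 := hind'.subtype_ne_bot_le_finrank
  refine le_trans (le_of_eq ?_) h3
  exact Fintype.card_congr (Equiv.subtypeUnivEquiv hne).symm

end comps

end Pool.Agent.X320.RU
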