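import Pool.Agent.X320.RU.Alg

/-! Clifford theory: the stabiliser of the isomorphism class of a simple submodule has index at most `n`. -/

set_option autoImplicit false
set_option linter.all false

namespace Pool.Agent.X320.RU

open Module

variable {Γ : Type*} [Group Γ] {k : Type*} [Field k] {R : Type*} [Ring R] [Algebra k R] {V : Type*} [AddCommGroup V]
  [Module k V] [Module R V] [IsScalarTower k R V]
  (T : Γ →* (V ≃ₗ[k] V)) (c : Γ →* (R ≃ₐ[k] R)) (hT : ∀ g (a : R) (v : V), T g (a • v) = c g a • T g v)

theorem c_inv (g : Γ) (a : R) : c g⁻¹ a = (c g).symm a := by rw [map_inv]; rfl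

theorem T_inv (g : Γ) (v : V) : T g⁻¹ v = (T g).symm v := by rw [map_inv]; rfl

variable (S : Submodule R V)

/-- the elements which fix the isomorphism class of `S` -/
def stab : Subgroup Γ where
  carrier := {g | ∃ A : S ≃ₗ[k] S, ∀ (a : R) (s : S), A (a • s) = c g a • A s}
  one_mem' := by
    refine ⟨LinearEquiv.refl k S, fun a s => ?_⟩
    rw [map_one]
    rfl
  mul_mem' := by
    rintro g h ⟨A, hA⟩ ⟨B, hB⟩
    refine ⟨B.trans A, fun a s => ?_⟩
    rw [map_mul, LinearEquiv.trans_apply, LinearEquiv.trans_apply, hB, hA]
    rfl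
  inv_mem' := by
    rintro g ⟨A, hA⟩
    refine ⟨A.symm, fun a s => ?_⟩
    rw [c_inv]
    apply A.injective
    rw [A.apply_symm_apply, hA, AlgEquiv.apply_symm_apply, A.apply_symm_apply]

include hT in
/-- an element which acts as an element of `R` -/
theorem mem_stab (w : Γ) (r r' : R) (hr : ∀ v : V, r • v = T w v) (hr' : ∀ v : V, r' • v = (T w).symm v) :
    w ∈ stab c S := by
  have h1 : ∀ v : V, r' • r • v = v := fun v => by rw [hr, hr', LinearEquiv.symm_apply_apply]
  have h2 : ∀ v : V, r • r' • v = v := fun v => by rw [hr', hr, LinearEquiv.apply_symm_apply]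
  refine ⟨{ toFun := fun s => r • s
            invFun := fun s => r' • s
            left_inv := fun s => Subtype.ext (h1 s.1)
            right_inv := fun s => Subtype.ext (h2 s.1)
            map_add' := fun s t => smul_add _ s t
            map_smul' := fun x s => by
              apply Subtype.ext
              show r • (x • s.1) = x • (r • s.1)
              rw [hr, hr, map_smul] }, fun a s => ?_⟩
  apply Subtype.ext
  show r • (a • s.1) = c w a • (r • s.1)
  rw [hr, hr, hT]

/-- the translate of a submodule -/
def sh (g : Γ) : Submodule R V where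
  carrier := {v | (T g).symm v ∈ S}
  add_mem' := by
    intro a b ha hb
    show (T g).symm (a + b) ∈ S
    rw [map_add]
    exact S.add_mem ha hb
  zero_mem' := by
    show (T g).symm 0 ∈ S
    rw [map_zero]
    exact S.zero_mem
  smul_mem' := by
    intro a v hv
    show (T g).symm (a • v) ∈ S
    have h1 := S.smul_mem ((c g).symm a) (show (T g).symm v ∈ S from hv)
    have h2 : (T g).symm (a • v) = (c g).symm a • (T g).symm v := by
      apply (T g).injective
      rw [LinearEquiv.apply_symm_apply, hT, AlgEquiv.apply_symm_apply, LinearEquiv.apply_symm_apply]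
    rwa [h2]

theorem mem_sh (g : Γ) (v : V) : v ∈ sh T c hT S g ↔ (T g).symm v ∈ S := Iff.rfl

/-- translation as an automorphism of the lattice -/
def shIso (g : Γ) : Submodule R V ≃o Submodule R V where
  toFun S := sh T c hT S g
  invFun S := sh T c hT S g⁻¹
  left_inv S := by
    ext v
    rw [mem_sh, mem_sh, map_inv]
    show (T g).symm ((T g).symm.symm v) ∈ S ↔ v ∈ S
    rw [LinearEquiv.symm_symm, LinearEquiv.symm_apply_apply]
  right_inv S := by
    ext v
    rw [mem_sh, mem_sh, map_inv]
    show (T g).symm.symm ((T g).symm v) ∈ S ↔ v ∈ S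
    rw [LinearEquiv.symm_symm, LinearEquiv.apply_symm_apply]
  map_rel_iff' := by
    intro S S'
    constructor
    · intro h v hv
      have h1 : T g v ∈ sh T c hT S g := by
        rw [mem_sh, LinearEquiv.symm_apply_apply]
        exact hv
      have h2 := h h1
      have h3 : (T g).symm (T g v) ∈ S' := h2
      rwa [LinearEquiv.symm_apply_apply] at h3
    · intro h v hv
      exact h hv

theorem simple_sh (g : Γ) [h : IsSimpleModule R S] : IsSimpleModule R (sh T c hT S g) := by
  rw [isSimpleModule_iff_isAtom] at h ⊢
  exact (OrderIso.isAtom_iff (shIso T c hT g) S).2 h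

/-- the map from `S` to its translate -/
noncomputable def toSh (g : Γ) : S ≃ₗ[k] sh T c hT S g where
  toFun s := ⟨T g s.1, by
    rw [mem_sh, LinearEquiv.symm_apply_apply]
    exact s.2⟩
  invFun s := ⟨(T g).symm s.1, s.2⟩
  left_inv s := Subtype.ext ((T g).symm_apply_apply s.1)
  right_inv s := Subtype.ext ((T g).apply_symm_apply s.1)
  map_add' s t := Subtype.ext (map_add _ _ _)
  map_smul' x s := Subtype.ext (map_smul (T g) x s.1)

theorem toSh_smul (g : Γ) (a : R) (s : S) :
    toSh T c hT S g (a • s) = c g a • toSh T c hT S g s := Subtype.ext (hT g a s.1)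

theorem toSh_symm_smul (g : Γ) (a : R) (s : sh T c hT S g) :
    (toSh T c hT S g).symm (a • s) = (c g).symm a • (toSh T c hT S g).symm s := by
  apply (toSh T c hT S g).injective
  rw [LinearEquiv.apply_symm_apply, toSh_smul, AlgEquiv.apply_symm_apply, LinearEquiv.apply_symm_apply]

theorem mem_stab_of_equiv (g h : Γ) (e : sh T c hT S g ≃ₗ[R] sh T c hT S h) : h⁻¹ * g ∈ stab c S := by
  let e' : sh T c hT S g ≃ₗ[k] sh T c hT S h :=
    { e with
      map_smul' := fun x s => by
        have h1 := e.map_smul (algebraMap k R x) s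
        rw [algebraMap_smul, algebraMap_smul] at h1
        exact h1 }
  have he' : ∀ s, e' s = e s := fun s => rfl
  refine ⟨((toSh T c hT S g).trans e').trans (toSh T c hT S h).symm, fun a s => ?_⟩
  rw [LinearEquiv.trans_apply, LinearEquiv.trans_apply, LinearEquiv.trans_apply, LinearEquiv.trans_apply,
    toSh_smul, he', he', map_smul, toSh_symm_smul, map_mul, map_inv]
  rfl

include T hT in
/-- the index of the stabiliser -/
theorem card_le [FiniteDimensional k V] [hS : IsSimpleModule R S] [Finite (Γ ⧸ stab c S)] :
    Nat.card (Γ ⧸ stab c S) ≤ finrank k V := by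
  classical
  haveI := Fintype.ofFinite (Γ ⧸ stab c S)
  have h1 := card_comps (k := k) (R := R) (V := V)
    (f := fun q : Γ ⧸ stab c S => isotypicComponent R V (sh T c hT S q.out)) ?_ ?_
  · rw [Nat.card_eq_fintype_card]
    exact h1
  · intro q q' hqq
    simp only at hqq
    haveI := simple_sh T c hT S q.out
    haveI := simple_sh T c hT S q'.out
    have hle : sh T c hT S q.out ≤ isotypicComponent R V (sh T c hT S q'.out) := by
      rw [← hqq]
      exact Submodule.le_isotypicComponent _
    obtain ⟨e⟩ := isIsotypicOfType_submodule_iff.mp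
      (IsIsotypicOfType.isotypicComponent R V (sh T c hT S q'.out)) _ hle
    have h2 := mem_stab_of_equiv T c hT S q.out q'.out e
    have h3 := QuotientGroup.eq.2 h2
    rw [QuotientGroup.out_eq', QuotientGroup.out_eq'] at h3
    exact h3.symm
  · intro q
    exact ⟨_, simple_sh T c hT S q.out, rfl⟩

end Pool.Agent.X320.RU
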