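import Pool.Agent.X320.RU.Fin

/-! The core of the argument. -/

set_option autoImplicit false
set_option linter.all false

namespace Pool.Agent.X320.RU

open Module

theorem intertwine {k : Type*} [Field k] {S V : Type*} [AddCommGroup S] [Module k S] [AddCommGroup V] [Module k V]
    (f : S →ₗ[k] V) (y : End k S) (t : End k V) (h : ∀ s, f (y s) = t (f s)) (N m : ℕ) (s : S) :
    f (((y ^ N - 1) ^ m) s) = ((t ^ N - 1) ^ m) (f s) := by
  have h1 : ∀ (N : ℕ) s, f ((y ^ N) s) = (t ^ N) (f s) := by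
    intro N
    induction N with
    | zero => intro s; simp
    | succ N ih => intro s; rw [pow_succ, Module.End.mul_apply, ih, h, pow_succ, Module.End.mul_apply]
  have h2 : ∀ s, f ((y ^ N - 1) s) = (t ^ N - 1) (f s) := by
    intro s
    rw [LinearMap.sub_apply, map_sub, h1, LinearMap.sub_apply, Module.End.one_apply, Module.End.one_apply]
  induction m generalizing s with
  | zero => simp
  | succ m ih => rw [pow_succ, Module.End.mul_apply, ih, h2, pow_succ, Module.End.mul_apply]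

variable {Γ : Type*} [Group Γ] {k : Type*} [Field k] [IsAlgClosed k] [CharZero k]
  {R : Type*} [Ring R] [Algebra k R] {V : Type*} [AddCommGroup V]
  [Module k V] [Module R V] [IsScalarTower k R V] [FiniteDimensional k V]
  (T : Γ →* (V ≃ₗ[k] V)) (c : Γ →* (R ≃ₐ[k] R)) (hT : ∀ g (a : R) (v : V), T g (a • v) = c g a • T g v)
  (W : Subgroup Γ) (r : W → R) (hr : ∀ (w : W) (v : V), r w • v = T w v) (S : Submodule R V)

include hT hr in
theorem core [IsSimpleModule R S] {g : Γ} (hg : g ∈ stab c S) {N : ℕ} (hN : 0 < N) (m : ℕ) :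
    ∃ (L : End k V →ₗ[k] k) (X : Set k), X.Finite ∧
      (∀ w ∈ W, ((T (g * w) : V →ₗ[k] V) ^ N - 1 : End k V) ^ m = 0 → L (T w : V →ₗ[k] V) ∈ X) ∧
      ∀ (H : Subgroup Γ) (hH : H ≤ W),
        (∀ a : R, a ∈ Submodule.span k {b | ∃ (h : Γ) (hh : h ∈ H), b = r ⟨h, hH hh⟩}) →
        ∀ x₀ ∈ W, ∀ c₀ : k, (∀ h ∈ H, L (T (h * x₀) : V →ₗ[k] V) = c₀) →
          ∀ h ∈ H, ∀ s ∈ S, T h s = s := by
  classical
  haveI : IsScalarTower k R S := ⟨fun x y z => Subtype.ext (smul_assoc x y z.1)⟩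
  haveI : FiniteDimensional k S := inferInstanceAs (FiniteDimensional k (S.restrictScalars k))
  obtain ⟨A, hA⟩ := hg
  obtain ⟨f, β, hfinj, hβ, hf⟩ := eigen S (c g) (T g) (hT g) A hA
  let ι : S →ₗ[k] V := { toFun := fun s => s.1, map_add' := fun _ _ => rfl, map_smul' := fun _ _ => rfl }
  have hι : LinearMap.ker ι = ⊥ := by
    rw [LinearMap.ker_eq_bot']
    intro s hs
    exact Subtype.ext hs
  obtain ⟨π, hπ⟩ := LinearMap.exists_leftInverse_of_injective ι hι
  have hπι : ∀ s : S, π s.1 = s := fun s => LinearMap.congr_fun hπ s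
  obtain ⟨B, hB⟩ : ∃ B : End k S, ∀ s, B s = β • A s := ⟨β • (A : S →ₗ[k] S), fun _ => rfl⟩
  obtain ⟨B', hB'⟩ : ∃ B : End k S, ∀ s, B s = β⁻¹ • A.symm s := ⟨β⁻¹ • (A.symm : S →ₗ[k] S), fun _ => rfl⟩
  have hBB' : B * B' = 1 := by
    ext s
    rw [Module.End.mul_apply, hB, hB', map_smul, smul_smul, mul_inv_cancel₀ hβ, one_smul,
      LinearEquiv.apply_symm_apply, Module.End.one_apply]
  let L : End k V →ₗ[k] k :=
    { toFun := fun u => LinearMap.trace k S (B * (π ∘ₗ u ∘ₗ ι))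
      map_add' := fun u v => by
        have : B * (π ∘ₗ (u + v) ∘ₗ ι) = B * (π ∘ₗ u ∘ₗ ι) + B * (π ∘ₗ v ∘ₗ ι) := by
          rw [← mul_add]
          congr 1
          ext s
          simp
        rw [this, map_add]
      map_smul' := fun x u => by
        have : B * (π ∘ₗ (x • u) ∘ₗ ι) = x • (B * (π ∘ₗ u ∘ₗ ι)) := by
          rw [← mul_smul_comm]
          congr 1
          ext s
          simp
        rw [this, map_smul]
        rfl }
  have hL : ∀ u, L u = LinearMap.trace k S (B * (π ∘ₗ u ∘ₗ ι)) := fun u => rfl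
  -- the action of `R` on `S`
  let act : R →ₐ[k] End k S := Algebra.lsmul k k S
  have hact : ∀ a s, act a s = a • s := fun a s => rfl
  have hTact : ∀ w : W, π ∘ₗ (T w : V →ₗ[k] V) ∘ₗ ι = act (r w) := by
    intro w
    ext s
    congr 1
    show π (T w s.1) = r w • s
    rw [← hr]
    exact hπι (r w • s)
  refine ⟨L, _, finite_traces (k := k) (S := S) (n := m) hN, ?_, ?_⟩
  · intro w hw hnil
    refine ⟨B * act (r ⟨w, hw⟩), ?_, ?_⟩
    · -- the eigenvalues
      have hint : ∀ s, (f.restrictScalars k) ((B * act (r ⟨w, hw⟩)) s) =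
          (T (g * w) : V →ₗ[k] V) ((f.restrictScalars k) s) := by
        intro s
        show f (B (r ⟨w, hw⟩ • s)) = T (g * w) (f s)
        rw [hB]
        have h1 : f (β • A (r ⟨w, hw⟩ • s)) = β • f (A (r ⟨w, hw⟩ • s)) :=
          (f.restrictScalars k).map_smul β _
        rw [h1, ← hf, map_smul, hr, map_mul]
        rfl
      ext s
      congr 1
      apply hfinj
      have h1 := intertwine (f.restrictScalars k) _ _ hint N m s
      rw [hnil] at h1
      rw [LinearMap.zero_apply] at h1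
      show f _ = f 0
      rw [map_zero]
      exact h1
    · rw [hL, ← hTact ⟨w, hw⟩]
  · intro H hH hspan x₀ hx₀ c₀ hc h₀ hh₀ s hs
    have hmulr : ∀ (a b : W), act (r (a * b)) = act (r a) * act (r b) := by
      intro a b
      ext s
      show r (a * b) • s.1 = r a • r b • s.1
      rw [hr, hr, hr, Subgroup.coe_mul, map_mul]
      rfl
    have h1 : ∀ (h : Γ) (hh : h ∈ H), LinearMap.trace k S (B * (act (r ⟨h, hH hh⟩) * act (r ⟨x₀, hx₀⟩))) = c₀ := by
      intro h hh
      rw [← hc h hh, hL, hTact ⟨h * x₀, W.mul_mem (hH hh) hx₀⟩, ← hmulr]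
      rfl
    have h2 : ∀ a : R, LinearMap.trace k S (B * (act a * ((act (r ⟨h₀, hH hh₀⟩) - 1) * act (r ⟨x₀, hx₀⟩)))) = 0 := by
      intro a
      refine Submodule.span_induction (p := fun a _ =>
        LinearMap.trace k S (B * (act a * ((act (r ⟨h₀, hH hh₀⟩) - 1) * act (r ⟨x₀, hx₀⟩)))) = 0)
        ?_ ?_ ?_ ?_ (hspan a)
      · rintro _ ⟨h, hh, rfl⟩
        have e : B * (act (r ⟨h, hH hh⟩) * ((act (r ⟨h₀, hH hh₀⟩) - 1) * act (r ⟨x₀, hx₀⟩))) =
            B * (act (r ⟨h * h₀, hH (H.mul_mem hh hh₀)⟩) * act (r ⟨x₀, hx₀⟩)) -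
            B * (act (r ⟨h, hH hh⟩) * act (r ⟨x₀, hx₀⟩)) := by
          have e2 : act (r ⟨h * h₀, hH (H.mul_mem hh hh₀)⟩) = act (r ⟨h, hH hh⟩) * act (r ⟨h₀, hH hh₀⟩) :=
            hmulr ⟨h, hH hh⟩ ⟨h₀, hH hh₀⟩
          rw [e2, sub_mul, one_mul, mul_sub, mul_sub, mul_assoc]
        rw [e, map_sub, h1 _ (H.mul_mem hh hh₀), h1 _ hh, sub_self]
      · rw [map_zero, zero_mul, mul_zero, map_zero]
      · intro a b _ _ ha hb
        rw [map_add, add_mul, mul_add, map_add, ha, hb, add_zero]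
      · intro x a _ ha
        have e : B * (act (x • a) * ((act (r ⟨h₀, hH hh₀⟩) - 1) * act (r ⟨x₀, hx₀⟩))) =
            x • (B * (act a * ((act (r ⟨h₀, hH hh₀⟩) - 1) * act (r ⟨x₀, hx₀⟩)))) := by
          rw [map_smul, smul_mul_assoc, mul_smul_comm]
        rw [e, map_smul, ha, smul_zero]
    have h3 : (act (r ⟨h₀, hH hh₀⟩) - 1) * act (r ⟨x₀, hx₀⟩) * B = 0 := by
      apply trace_zero
      intro u
      obtain ⟨a, ha⟩ := burnside (R := R) u
      have hu : u = act a := by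
        ext s
        rw [hact, ha]
      rw [hu]
      have h4 := h2 a
      rw [LinearMap.trace_mul_comm] at h4
      rw [← mul_assoc, ← mul_assoc]
      rw [← mul_assoc] at h4
      exact h4
    have hinv : act (r ⟨x₀, hx₀⟩) * act (r ⟨x₀⁻¹, W.inv_mem hx₀⟩) = 1 := by
      rw [← hmulr]
      ext s
      show r _ • s.1 = s.1
      rw [hr]
      show T (x₀ * x₀⁻¹) s.1 = s.1
      rw [mul_inv_cancel, map_one]
      rfl
    have h4 : act (r ⟨h₀, hH hh₀⟩) = 1 := by
      have h5 : (act (r ⟨h₀, hH hh₀⟩) - 1) * act (r ⟨x₀, hx₀⟩) * B * (B' * act (r ⟨x₀⁻¹, W.inv_mem hx₀⟩)) = 0 := by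
        rw [h3, zero_mul]
      rw [mul_assoc, ← mul_assoc B, hBB', one_mul, mul_assoc, hinv, mul_one] at h5
      exact sub_eq_zero.1 h5
    have h5 := LinearMap.congr_fun h4 (⟨s, hs⟩ : S)
    have h6 : r ⟨h₀, hH hh₀⟩ • s = s := congrArg Subtype.val h5
    rw [hr] at h6
    exact h6

end Pool.Agent.X320.RU
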