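import Pool.Agent.X320.RU.Cliff

/-! Endomorphisms whose eigenvalues are roots of unity. -/

set_option autoImplicit false
set_option linter.all false

namespace Pool.Agent.X320.RU

open Module Polynomial

section

variable {k : Type*} [Field k] {S : Type*} [AddCommGroup S] [Module k S]

theorem pow_eigen {y : End k S} {α : k} {s : S} (h : y s = α • s) (N n : ℕ) :
    ((y ^ N - 1) ^ n) s = (α ^ N - 1) ^ n • s := by
  have h1 : ∀ N : ℕ, (y ^ N) s = α ^ N • s := by
    intro N
    induction N with
    | zero => simp
    | succ N ih =>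
      rw [pow_succ, Module.End.mul_apply, h, map_smul, ih, smul_smul, pow_succ, mul_comm]
  have h2 : (y ^ N - 1) s = (α ^ N - 1) • s := by
    rw [LinearMap.sub_apply, h1, sub_smul, one_smul, Module.End.one_apply]
  induction n with
  | zero => simp
  | succ n ih => rw [pow_succ, Module.End.mul_apply, h2, map_smul, ih, smul_smul, pow_succ, mul_comm]

theorem root_of_unity {y : End k S} {α : k} {s : S} (h : y s = α • s) (hs : s ≠ 0) {N n : ℕ}
    (hy : (y ^ N - 1) ^ n = 0) : α ^ N = 1 := by
  have h1 := pow_eigen h N n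
  rw [hy, LinearMap.zero_apply] at h1
  have h2 := (smul_eq_zero.1 h1.symm).resolve_right hs
  by_contra hne
  exact pow_ne_zero n (sub_ne_zero.2 hne) h2

theorem finite_traces [IsAlgClosed k] [FiniteDimensional k S] {N n : ℕ} (hN : 0 < N) :
    {t : k | ∃ y : End k S, (y ^ N - 1) ^ n = 0 ∧ t = LinearMap.trace k S y}.Finite := by
  classical
  have hfin : {a : k | a ^ N = 1}.Finite := by
    refine ((X ^ N - 1 : k[X]).roots.toFinset.finite_toSet).subset fun a ha => ?_
    have hne : (X ^ N - 1 : k[X]) ≠ 0 := by
      have := X_pow_sub_C_ne_zero hN (1 : k)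
      rwa [map_one] at this
    rw [Finset.mem_coe, Multiset.mem_toFinset, mem_roots hne, IsRoot, eval_sub, eval_pow, eval_X, eval_one,
      sub_eq_zero]
    exact ha
  haveI : Finite {a : k | a ^ N = 1} := hfin
  refine (Set.finite_range fun f : Fin (finrank k S) → {a : k | a ^ N = 1} => ∑ i, (f i : k)).subset ?_
  rintro t ⟨y, hy, rfl⟩
  rw [Module.End.trace_eq_sum_roots_charpoly_of_splits (IsAlgClosed.splits _)]
  have hcard : Multiset.card (LinearMap.charpoly y).roots = finrank k S := by
    rw [splits_iff_card_roots.1 (IsAlgClosed.splits _), LinearMap.charpoly_natDegree]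
  set l := (LinearMap.charpoly y).roots.toList with hl
  have hlen : l.length = finrank k S := by rw [hl, Multiset.length_toList, hcard]
  have hmem : ∀ a ∈ l, a ^ N = 1 := by
    intro a ha
    rw [hl, Multiset.mem_toList] at ha
    have h1 := isRoot_of_mem_roots ha
    rw [← Module.End.hasEigenvalue_iff_isRoot_charpoly] at h1
    obtain ⟨s, hs⟩ := h1.exists_hasEigenvector
    exact root_of_unity hs.apply_eq_smul hs.2 hy
  refine ⟨fun i => ⟨l.get (i.cast hlen.symm), hmem _ (List.get_mem _ _)⟩, ?_⟩
  show ∑ i : Fin (finrank k S), l.get (i.cast hlen.symm) = _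
  have h1 : (LinearMap.charpoly y).roots.sum = l.sum := by
    rw [hl, Multiset.sum_toList]
  rw [h1, ← List.sum_ofFn]
  congr 1
  have h2 : l = List.ofFn l.get := (List.ofFn_get l).symm
  conv_rhs => rw [h2]
  exact (List.ofFn_congr hlen _).symm

/-- the trace form is nondegenerate -/
theorem trace_zero [FiniteDimensional k S] (z : End k S) (h : ∀ u : End k S, LinearMap.trace k S (u * z) = 0) :
    z = 0 := by
  classical
  ext s
  rw [LinearMap.zero_apply]
  by_contra hne
  obtain ⟨φ, hφ⟩ : ∃ φ : S →ₗ[k] k, φ (z s) ≠ 0 := by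
    by_contra hcon
    push Not at hcon
    exact hne ((Module.forall_dual_apply_eq_zero_iff k _).1 hcon)
  apply hφ
  have h1 := h (φ.smulRight s)
  have h2 : (φ.smulRight s : End k S) * z = (φ ∘ₗ z).smulRight s := by
    ext v
    simp
  rw [h2, LinearMap.trace_smulRight] at h1
  exact h1

end

end Pool.Agent.X320.RU
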