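import Pool.Agent.X320.RU.Types
import Pool.Agent.X320.DS.Pos

/-! The theorem for Galois representations. -/

set_option autoImplicit false
set_option linter.all false

namespace Pool.Agent.X320.RU

open MeasureTheory Topology Filter NumberField IsDedekindDomain Matrix Module
open Pool.Agent.W401.Cheb Pool.Agent.X320.DS

variable {K : Type} [Field K] [NumberField K] {ℓ : ℕ} [Fact ℓ.Prime] {n : ℕ}

theorem root_ne_zero {Γ : Type*} [Group Γ] (ρ : Γ →* GL (Fin n) (PadicAlgCl ℓ)) (g : Γ) {a : PadicAlgCl ℓ}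
    (ha : (ρ g : Matrix (Fin n) (Fin n) (PadicAlgCl ℓ)).charpoly.IsRoot a) : a ≠ 0 := by
  rintro rfl
  have h1 : (LinearMap.charpoly (toEnd ρ g)).IsRoot 0 := by
    have e : LinearMap.charpoly (toEnd ρ g) = (ρ g : Matrix (Fin n) (Fin n) (PadicAlgCl ℓ)).charpoly :=
      Matrix.charpoly_toLin' _
    rw [e]
    exact ha
  rw [← Module.End.hasEigenvalue_iff_isRoot_charpoly] at h1
  obtain ⟨v, hv⟩ := h1.exists_hasEigenvector
  have h2 := hv.apply_eq_smul
  rw [zero_smul] at h2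
  apply hv.2
  have h3 : toEnd ρ g⁻¹ (toEnd ρ g v) = v := by
    have : (toEnd ρ g⁻¹ * toEnd ρ g) v = v := by rw [inv_mul_toEnd]; rfl
    exact this
  rw [← h3, h2, map_zero]

theorem weight_zero (ρ : GK K →* GL (Fin n) (PadicAlgCl ℓ)) (hρ : Continuous ρ) (hss : Semisimple ρ)
    {d : ℕ} (hd : TypesLE ρ d ∨ d = n) {δ : ℝ} (hδ : (1 - δ) * d < 1)
    (Good : HeightOneSpectrum (𝓞 K) → Prop) (hG : ∃ᶠ M in atTop, δ ≤ dens Good M)
    (hX : ∀ v, Good v → ∀ σ, IsFrob v σ → ∀ a : PadicAlgCl ℓ,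
      (ρ σ⁻¹ : Matrix (Fin n) (Fin n) (PadicAlgCl ℓ)).charpoly.IsRoot a → IntBounded a) :
    ∃ H : Subgroup (GK K), IsOpen (H : Set (GK K)) ∧ ∀ h ∈ H, ρ h = 1 := by
  classical
  letI : MeasurableSpace (GK K) := borel _
  haveI : BorelSpace (GK K) := ⟨rfl⟩
  set μ : Measure (GK K) := Measure.haarMeasure (⊤ : TopologicalSpace.PositiveCompacts (GK K)) with hμ
  haveI : IsProbabilityMeasure μ := ⟨by
    have := Measure.haarMeasure_self (K₀ := (⊤ : TopologicalSpace.PositiveCompacts (GK K)))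
    rw [hμ]
    rwa [TopologicalSpace.PositiveCompacts.coe_top] at this⟩
  obtain ⟨N, hN, hexp⟩ := exists_exponent ρ hρ
  let E := Matrix.toLinAlgEquiv' (R := PadicAlgCl ℓ) (n := Fin n)
  have hE : ∀ g, E (ρ g : Matrix (Fin n) (Fin n) (PadicAlgCl ℓ)) = toEnd ρ g := fun g => rfl
  have hE2 : ∀ g, E (((ρ g : Matrix (Fin n) (Fin n) (PadicAlgCl ℓ)) ^ N - 1) ^ n) = (toEnd ρ g ^ N - 1) ^ n := by
    intro g
    rw [map_pow, map_sub, map_pow, map_one, hE]
  set Z : Set (GK K) := {g | ((ρ g : Matrix (Fin n) (Fin n) (PadicAlgCl ℓ)) ^ N - 1) ^ n = 0} with hZ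
  have hZc : IsClosed Z := by
    have h1 : Continuous fun g : GK K => (ρ g : Matrix (Fin n) (Fin n) (PadicAlgCl ℓ)) :=
      Units.continuous_val.comp hρ
    exact isClosed_eq (((h1.pow N).sub continuous_const).pow n) continuous_const
  have h1 := measure_ge_freq μ Good hG Z hZc (fun v hv σ hσ => by
    show ((ρ σ⁻¹ : Matrix (Fin n) (Fin n) (PadicAlgCl ℓ)) ^ N - 1) ^ n = 0
    apply E.injective
    rw [hE2, map_zero]
    refine unipotent_of fun a ha => hexp σ⁻¹ a ha (kronecker (root_ne_zero ρ _ ha) (hX v hv σ hσ a ha)))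
  have h2 : δ ≤ μ.real Z := by
    rw [measureReal_def]
    exact (ENNReal.ofReal_le_iff_le_toReal (measure_ne_top _ _)).1 h1
  refine main_types ρ μ hρ hss hN Z (fun g hg => ?_) hZc.measurableSet hd ?_
  · rw [← hE2, show ((ρ g : Matrix (Fin n) (Fin n) (PadicAlgCl ℓ)) ^ N - 1) ^ n = 0 from hg, map_zero]
  · have h3 : (0 : ℝ) ≤ d := Nat.cast_nonneg _
    have h4 : (1 - μ.real Z) * d ≤ (1 - δ) * d := mul_le_mul_of_nonneg_right (by linarith) h3
    linarith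

/-- the eigenvalues of an element of a finite image -/
theorem eigen_finite {Γ : Type*} [Group Γ] [TopologicalSpace Γ] [IsTopologicalGroup Γ] [CompactSpace Γ]
    (ρ : Γ →* GL (Fin n) (PadicAlgCl ℓ)) {H : Subgroup Γ} (hH : IsOpen (H : Set Γ)) (h1 : ∀ h ∈ H, ρ h = 1) (g : Γ)
    {a : PadicAlgCl ℓ} (ha : (ρ g : Matrix (Fin n) (Fin n) (PadicAlgCl ℓ)).charpoly.IsRoot a) :
    ∃ m : ℕ, 0 < m ∧ a ^ m = 1 := by
  haveI : Finite (Γ ⧸ H) := Subgroup.quotient_finite_of_isOpen _ hH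
  obtain ⟨m, hm, hgm⟩ := Subgroup.exists_pow_mem_of_index_ne_zero (H := H) (Subgroup.index_ne_zero_of_finite) g
  refine ⟨m, hm, ?_⟩
  have h2 : (LinearMap.charpoly (toEnd ρ g)).IsRoot a := by
    have e : LinearMap.charpoly (toEnd ρ g) = (ρ g : Matrix (Fin n) (Fin n) (PadicAlgCl ℓ)).charpoly :=
      Matrix.charpoly_toLin' _
    rw [e]
    exact ha
  rw [← Module.End.hasEigenvalue_iff_isRoot_charpoly] at h2
  obtain ⟨v, hv⟩ := h2.exists_hasEigenvector
  have h3 := pow_eigen hv.apply_eq_smul m 1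
  have h4 : (toEnd ρ g ^ m - 1) ^ 1 = 0 := by
    rw [pow_one, ← map_pow]
    have : toEnd ρ (g ^ m) = 1 := by
      have e : toEnd ρ (g ^ m) = Matrix.toLin' (ρ (g ^ m) : Matrix (Fin n) (Fin n) (PadicAlgCl ℓ)) := rfl
      rw [e, h1 _ hgm.2, Units.val_one, Matrix.toLin'_one]
      rfl
    rw [this, sub_self]
  rw [h4, LinearMap.zero_apply, pow_one] at h3
  exact sub_eq_zero.1 ((smul_eq_zero.1 h3.symm).resolve_right hv.2)

theorem conj_norm {k : Type*} [Field k] [CharZero k] {a : k} {m : ℕ} (hm : 0 < m) (h : a ^ m = 1) :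
    IsIntegral ℤ a ∧ ∀ z : ℂ, Polynomial.aeval z (minpoly ℤ a) = 0 → ‖z‖ = 1 := by
  have hi : IsIntegral ℤ a := ⟨Polynomial.X ^ m - 1, Polynomial.monic_X_pow_sub_C (1 : ℤ) hm.ne', by
    rw [Polynomial.eval₂_sub, Polynomial.eval₂_pow, Polynomial.eval₂_X, Polynomial.eval₂_one, h, sub_self]⟩
  refine ⟨hi, fun z hz => ?_⟩
  have h1 : minpoly ℤ a ∣ Polynomial.X ^ m - 1 := by
    refine minpoly.isIntegrallyClosed_dvd hi ?_
    rw [map_sub, map_pow, Polynomial.aeval_X, map_one, h, sub_self]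
  obtain ⟨q, hq⟩ := h1
  have h2 := congrArg (Polynomial.aeval z) hq
  rw [map_mul, hz, zero_mul, map_sub, map_pow, Polynomial.aeval_X, map_one, sub_eq_zero] at h2
  have h3 : ‖z‖ ^ m = 1 := by rw [← norm_pow, h2, norm_one]
  exact (pow_eq_one_iff_of_nonneg (norm_nonneg _) hm.ne').1 h3

end Pool.Agent.X320.RU
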