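import Pool.Agent.X320.RU.Core
import Pool.Agent.X320.RU.Fun

/-! The algebra generated by the image of a subgroup. -/

set_option autoImplicit false
set_option linter.all false

namespace Pool.Agent.X320.RU

open Module Pool.Agent.X320.DS

variable {Γ : Type*} [Group Γ] {k : Type*} [Field k] {n : ℕ} (ρ : Γ →* GL (Fin n) k)

/-- the algebra generated by the image of a subgroup -/
noncomputable def algOn (W : Subgroup Γ) : Subalgebra k (End k (Fin n → k)) := Algebra.adjoin k (toEnd ρ '' W)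

theorem mem_algOn {W : Subgroup Γ} {w : Γ} (hw : w ∈ W) : toEnd ρ w ∈ algOn ρ W :=
  Algebra.subset_adjoin ⟨w, hw, rfl⟩

theorem algOn_mono {W W' : Subgroup Γ} (h : W ≤ W') : algOn ρ W ≤ algOn ρ W' :=
  Algebra.adjoin_mono (Set.image_mono h)

theorem algOn_span (W : Subgroup Γ) :
    Subalgebra.toSubmodule (algOn ρ W) = Submodule.span k (toEnd ρ '' W) := by
  rw [algOn, Algebra.adjoin_eq_span]
  congr 1
  have h : Submonoid.closure (toEnd ρ '' (W : Set Γ)) = W.toSubmonoid.map (toEnd ρ) := by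
    have h1 : (toEnd ρ '' (W : Set Γ)) = (W.toSubmonoid.map (toEnd ρ) : Set (End k (Fin n → k))) := rfl
    rw [h1, Submonoid.closure_eq]
  rw [h]
  rfl

theorem inv_mul_toEnd (g : Γ) : toEnd ρ g⁻¹ * toEnd ρ g = 1 := by rw [← map_mul, inv_mul_cancel, map_one]

theorem mul_inv_toEnd (g : Γ) : toEnd ρ g * toEnd ρ g⁻¹ = 1 := by rw [← map_mul, mul_inv_cancel, map_one]

/-- the action of `g` -/
noncomputable def T (g : Γ) : (Fin n → k) ≃ₗ[k] (Fin n → k) :=
  LinearEquiv.ofLinear (toEnd ρ g) (toEnd ρ g⁻¹) (mul_inv_toEnd ρ g) (inv_mul_toEnd ρ g)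

theorem T_apply (g : Γ) (v : Fin n → k) : T ρ g v = toEnd ρ g v := rfl

variable (W : Subgroup Γ) [W.Normal]

theorem conj_mem (g : Γ) {a : End k (Fin n → k)} (ha : a ∈ algOn ρ W) :
    toEnd ρ g * a * toEnd ρ g⁻¹ ∈ algOn ρ W := by
  refine Algebra.adjoin_induction (p := fun a _ => toEnd ρ g * a * toEnd ρ g⁻¹ ∈ algOn ρ W) ?_ ?_ ?_ ?_ ha
  · rintro _ ⟨w, hw, rfl⟩
    rw [← map_mul, ← map_mul]
    exact mem_algOn ρ ((inferInstance : W.Normal).conj_mem w hw g)
  · intro r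
    rw [← Algebra.commutes, mul_assoc, mul_inv_toEnd, mul_one]
    exact (algOn ρ W).algebraMap_mem r
  · intro x y _ _ hx hy
    rw [mul_add, add_mul]
    exact (algOn ρ W).add_mem hx hy
  · intro x y _ _ hx hy
    have e : toEnd ρ g * (x * y) * toEnd ρ g⁻¹ = (toEnd ρ g * x * toEnd ρ g⁻¹) * (toEnd ρ g * y * toEnd ρ g⁻¹) := by
      rw [mul_assoc (toEnd ρ g * x), ← mul_assoc (toEnd ρ g⁻¹), ← mul_assoc (toEnd ρ g⁻¹), inv_mul_toEnd, one_mul]
      simp only [mul_assoc]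
    rw [e]
    exact (algOn ρ W).mul_mem hx hy

theorem conj_cancel (g : Γ) (a : End k (Fin n → k)) :
    toEnd ρ g⁻¹ * (toEnd ρ g * a * toEnd ρ g⁻¹) * toEnd ρ g = a := by
  rw [mul_assoc (toEnd ρ g) a, ← mul_assoc (toEnd ρ g⁻¹) (toEnd ρ g), inv_mul_toEnd, one_mul, mul_assoc,
    inv_mul_toEnd, mul_one]

theorem conj_cancel' (g : Γ) (a : End k (Fin n → k)) :
    toEnd ρ g * (toEnd ρ g⁻¹ * a * toEnd ρ g) * toEnd ρ g⁻¹ = a := by
  rw [mul_assoc (toEnd ρ g⁻¹) a, ← mul_assoc (toEnd ρ g) (toEnd ρ g⁻¹), mul_inv_toEnd, one_mul, mul_assoc,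
    mul_inv_toEnd, mul_one]

/-- conjugation by `g` -/
noncomputable def conj (g : Γ) : algOn ρ W ≃ₐ[k] algOn ρ W where
  toFun a := ⟨toEnd ρ g * a.1 * toEnd ρ g⁻¹, conj_mem ρ W g a.2⟩
  invFun a := ⟨toEnd ρ g⁻¹ * a.1 * toEnd ρ g, by
    have := conj_mem ρ W g⁻¹ a.2
    rwa [inv_inv] at this⟩
  left_inv a := Subtype.ext (conj_cancel ρ g a.1)
  right_inv a := Subtype.ext (conj_cancel' ρ g a.1)
  map_mul' a b := by
    apply Subtype.ext
    show toEnd ρ g * (a.1 * b.1) * toEnd ρ g⁻¹ = (toEnd ρ g * a.1 * toEnd ρ g⁻¹) * (toEnd ρ g * b.1 * toEnd ρ g⁻¹)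
    rw [mul_assoc (toEnd ρ g * a.1), ← mul_assoc (toEnd ρ g⁻¹), ← mul_assoc (toEnd ρ g⁻¹), inv_mul_toEnd, one_mul]
    simp only [mul_assoc]
  map_add' a b := by
    apply Subtype.ext
    show toEnd ρ g * (a.1 + b.1) * toEnd ρ g⁻¹ = toEnd ρ g * a.1 * toEnd ρ g⁻¹ + toEnd ρ g * b.1 * toEnd ρ g⁻¹
    rw [mul_add, add_mul]
  commutes' r := by
    apply Subtype.ext
    show toEnd ρ g * (algebraMap k _ r) * toEnd ρ g⁻¹ = algebraMap k _ r
    rw [← Algebra.commutes, mul_assoc, mul_inv_toEnd, mul_one]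

theorem conj_val (g : Γ) (a : algOn ρ W) : (conj ρ W g a).1 = toEnd ρ g * a.1 * toEnd ρ g⁻¹ := rfl

theorem conj_symm_val (g : Γ) (a : algOn ρ W) : ((conj ρ W g).symm a).1 = toEnd ρ g⁻¹ * a.1 * toEnd ρ g := rfl

theorem smul_def' (a : algOn ρ W) (v : Fin n → k) : a • v = a.1 v := rfl

theorem T_smul (g : Γ) (a : algOn ρ W) (v : Fin n → k) : T ρ g (a • v) = conj ρ W g a • T ρ g v := by
  rw [smul_def', smul_def', conj_val, T_apply, T_apply]
  show _ = toEnd ρ g (a.1 (toEnd ρ g⁻¹ (toEnd ρ g v)))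
  have : toEnd ρ g⁻¹ (toEnd ρ g v) = v := LinearMap.congr_fun (inv_mul_toEnd ρ g) v
  rw [this]


/-- the action, as a homomorphism -/
noncomputable def TT : Γ →* ((Fin n → k) ≃ₗ[k] (Fin n → k)) where
  toFun g := T ρ g
  map_one' := by
    ext v : 1
    show toEnd ρ 1 v = v
    rw [map_one]
    rfl
  map_mul' g h := by
    ext v : 1
    show toEnd ρ (g * h) v = toEnd ρ g (toEnd ρ h v)
    rw [map_mul]
    rfl

theorem TT_coe (g : Γ) : ((TT ρ g : (Fin n → k) ≃ₗ[k] (Fin n → k)) : (Fin n → k) →ₗ[k] (Fin n → k)) = toEnd ρ g := rfl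

/-- conjugation, as a homomorphism -/
noncomputable def cc : Γ →* (algOn ρ W ≃ₐ[k] algOn ρ W) where
  toFun g := conj ρ W g
  map_one' := by
    ext a : 1
    apply Subtype.ext
    show toEnd ρ 1 * a.1 * toEnd ρ 1⁻¹ = a.1
    rw [inv_one, map_one, one_mul, mul_one]
  map_mul' g h := by
    ext a : 1
    apply Subtype.ext
    show toEnd ρ (g * h) * a.1 * toEnd ρ (g * h)⁻¹ = toEnd ρ g * (toEnd ρ h * a.1 * toEnd ρ h⁻¹) * toEnd ρ g⁻¹
    rw [mul_inv_rev, map_mul, map_mul]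
    simp only [mul_assoc]

/-- the algebra generated by the image of `W`, as a ring -/
def AR (W : Subgroup Γ) : Type _ := ↥(algOn ρ W)

noncomputable instance (W : Subgroup Γ) : Ring (AR ρ W) := inferInstanceAs (Ring (algOn ρ W))

noncomputable instance (W : Subgroup Γ) : Algebra k (AR ρ W) := inferInstanceAs (Algebra k (algOn ρ W))

noncomputable instance (W : Subgroup Γ) : Module (AR ρ W) (Fin n → k) :=
  inferInstanceAs (Module (algOn ρ W) (Fin n → k))

instance (W : Subgroup Γ) : IsScalarTower k (AR ρ W) (Fin n → k) :=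
  inferInstanceAs (IsScalarTower k (algOn ρ W) (Fin n → k))

/-- an element of the algebra -/
def mk {W : Subgroup Γ} (a : End k (Fin n → k)) (ha : a ∈ algOn ρ W) : AR ρ W := (⟨a, ha⟩ : algOn ρ W)

/-- the endomorphism -/
def val {W : Subgroup Γ} (a : AR ρ W) : End k (Fin n → k) := (show algOn ρ W from a).1

theorem val_mem {W : Subgroup Γ} (a : AR ρ W) : val ρ a ∈ algOn ρ W := (show algOn ρ W from a).2

theorem smul_val {W : Subgroup Γ} (a : AR ρ W) (v : Fin n → k) : a • v = val ρ a v := rfl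

theorem mk_smul {W : Subgroup Γ} (a : End k (Fin n → k)) (ha : a ∈ algOn ρ W) (v : Fin n → k) :
    mk ρ a ha • v = a v := rfl

theorem mk_val {W : Subgroup Γ} (a : AR ρ W) : mk ρ (val ρ a) (val_mem ρ a) = a := rfl

/-- conjugation, as a homomorphism -/
noncomputable def cr : Γ →* (AR ρ W ≃ₐ[k] AR ρ W) := cc ρ W

theorem TT_smul (g : Γ) (a : AR ρ W) (v : Fin n → k) : TT ρ g (a • v) = cr ρ W g a • TT ρ g v :=
  T_smul ρ W g a v

/-- the elements of the algebra given by the elements of the subgroup -/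
noncomputable def rr (w : W) : AR ρ W := mk ρ (toEnd ρ w) (mem_algOn ρ w.2)

theorem rr_smul (w : W) (v : Fin n → k) : rr ρ W w • v = TT ρ w v := rfl

end Pool.Agent.X320.RU
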