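import Pool.Agent.X320.RU.Group

/-! Finiteness of the image from eigenvalues which are roots of unity, for compact groups. -/

set_option autoImplicit false
set_option linter.all false

namespace Pool.Agent.X320.RU

open Module MeasureTheory Topology Pool.Agent.X320.DS

variable {Γ : Type*} [Group Γ] [TopologicalSpace Γ] [IsTopologicalGroup Γ] [CompactSpace Γ]
  {k : Type*} [Field k] {n : ℕ} (ρ : Γ →* GL (Fin n) k)

/-- an open normal subgroup whose open subgroups generate the same algebra -/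
theorem exists_minimal : ∃ W : Subgroup Γ, W.Normal ∧ IsOpen (W : Set Γ) ∧
    ∀ H : Subgroup Γ, H ≤ W → IsOpen (H : Set Γ) → algOn ρ H = algOn ρ W := by
  classical
  have hex : ∃ m : ℕ, ∃ H : Subgroup Γ, IsOpen (H : Set Γ) ∧ finrank k (algOn ρ H) = m :=
    ⟨_, ⊤, isOpen_univ, rfl⟩
  obtain ⟨H₀, hH₀, hm⟩ := Nat.find_spec hex
  have hmin : ∀ H : Subgroup Γ, IsOpen (H : Set Γ) → finrank k (algOn ρ H₀) ≤ finrank k (algOn ρ H) := by
    intro H hH
    rw [hm]
    exact Nat.find_min' hex ⟨H, hH, rfl⟩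
  have key : ∀ H : Subgroup Γ, H ≤ H₀ → IsOpen (H : Set Γ) → algOn ρ H = algOn ρ H₀ := by
    intro H hle hH
    have h1 : Subalgebra.toSubmodule (algOn ρ H) ≤ Subalgebra.toSubmodule (algOn ρ H₀) := algOn_mono ρ hle
    have h2 : Subalgebra.toSubmodule (algOn ρ H) = Subalgebra.toSubmodule (algOn ρ H₀) :=
      Submodule.eq_of_le_of_finrank_le h1 (hmin H hH)
    exact Subalgebra.toSubmodule_injective h2
  haveI : Finite (Γ ⧸ H₀) := Subgroup.quotient_finite_of_isOpen _ hH₀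
  haveI : H₀.FiniteIndex := Subgroup.finiteIndex_of_finite_quotient
  have hWo : IsOpen (H₀.normalCore : Set Γ) :=
    H₀.normalCore.isOpen_of_isClosed_of_finiteIndex (H₀.normalCore_isClosed (H₀.isClosed_of_isOpen hH₀))
  refine ⟨H₀.normalCore, inferInstance, hWo, fun H hle hH => ?_⟩
  rw [key H (hle.trans H₀.normalCore_le) hH, key _ H₀.normalCore_le hWo]

variable [MeasurableSpace Γ] [BorelSpace Γ] (μ : Measure Γ) [IsProbabilityMeasure μ] [μ.IsMulLeftInvariant]
  [IsAlgClosed k] [CharZero k] [TopologicalSpace k] [IsTopologicalRing k] [T2Space k]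

theorem fix_simple (hρ : Continuous ρ) {N : ℕ} (hN : 0 < N) (Z : Set Γ)
    (hZ : ∀ g ∈ Z, (toEnd ρ g ^ N - 1) ^ n = 0) (W : Subgroup Γ) [W.Normal] (hW : IsOpen (W : Set Γ))
    (hmin : ∀ H : Subgroup Γ, H ≤ W → IsOpen (H : Set Γ) → algOn ρ H = algOn ρ W)
    (S : Submodule (AR ρ W) (Fin n → k)) [IsSimpleModule (AR ρ W) S]
    (hpos : μ (Z ∩ (stab (cr ρ W) S : Set Γ)) ≠ 0) :
    ∃ H : Subgroup Γ, IsOpen (H : Set Γ) ∧ ∀ h ∈ H, ∀ s ∈ S, toEnd ρ h s = s := by
  classical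
  haveI : Finite (Γ ⧸ W) := Subgroup.quotient_finite_of_isOpen _ hW
  have hle : W ≤ stab (cr ρ W) S := fun w hw =>
    mem_stab (TT ρ) (cr ρ W) (TT_smul ρ W) S w (rr ρ W ⟨w, hw⟩) (rr ρ W ⟨w⁻¹, W.inv_mem hw⟩)
      (fun v => rfl) (fun v => rfl)
  -- a coset
  obtain ⟨g, hg, hgμ⟩ : ∃ g ∈ stab (cr ρ W) S, μ {w | w ∈ W ∧ g * w ∈ Z} ≠ 0 := by
    by_contra hcon
    push Not at hcon
    apply hpos
    refine measure_mono_null (t := ⋃ q : Γ ⧸ W, {x | x ∈ Z ∧ x ∈ stab (cr ρ W) S ∧ (QuotientGroup.mk x : Γ ⧸ W) = q})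
      (fun x hx => Set.mem_iUnion.2 ⟨QuotientGroup.mk x, hx.1, hx.2, rfl⟩) ?_
    rw [measure_iUnion_null_iff]
    intro q
    by_cases hq : q.out ∈ stab (cr ρ W) S
    · have h1 := hcon q.out hq
      rw [← measure_preimage_mul μ q.out]
      refine measure_mono_null ?_ h1
      rintro w ⟨hw1, hw2, hw3⟩
      refine ⟨?_, hw1⟩
      have h2 : (QuotientGroup.mk q.out : Γ ⧸ W) = QuotientGroup.mk (q.out * w) := by
        rw [QuotientGroup.out_eq']
        exact hw3.symm
      have h3 := QuotientGroup.eq.1 h2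
      rwa [inv_mul_cancel_left] at h3
    · refine measure_mono_null (t := ∅) ?_ measure_empty
      rintro x ⟨hx1, hx2, hx3⟩
      apply hq
      have h2 : (QuotientGroup.mk x : Γ ⧸ W) = QuotientGroup.mk q.out := by
        rw [QuotientGroup.out_eq', hx3]
      have h3 := QuotientGroup.eq.1 h2
      have h4 := (stab (cr ρ W) S).mul_mem hx2 (hle h3)
      rwa [mul_inv_cancel_left] at h4
  obtain ⟨L, X, hX, hL1, hL2⟩ := core (TT ρ) (cr ρ W) (TT_smul ρ W) W (rr ρ W) (rr_smul ρ W) S hg hN n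
  -- a value
  obtain ⟨c, hc⟩ : ∃ c : k, μ {x | x ∈ W ∧ L (toEnd ρ x) = c} ≠ 0 := by
    by_contra hcon
    push Not at hcon
    apply hgμ
    haveI : Finite X := hX
    refine measure_mono_null (t := ⋃ c : X, {x | x ∈ W ∧ L (toEnd ρ x) = c.1}) ?_
      ((measure_iUnion_null_iff).2 fun c => hcon c.1)
    rintro w ⟨hw1, hw2⟩
    refine Set.mem_iUnion.2 ⟨⟨L (toEnd ρ w), hL1 w hw1 ?_⟩, hw1, rfl⟩
    exact hZ (g * w) hw2
  obtain ⟨H, hH, hHW, x₀, hx₀, hconst⟩ := exists_coset_in ρ μ hW hρ L c hc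
  refine ⟨H, hH, hL2 H hHW ?_ x₀ hx₀ c hconst⟩
  intro a
  have h1 : val ρ a ∈ Subalgebra.toSubmodule (algOn ρ H) := by
    rw [hmin H hHW hH]
    exact val_mem ρ a
  rw [algOn_span] at h1
  let vl : AR ρ W →ₗ[k] End k (Fin n → k) := (algOn ρ W).val.toLinearMap
  have h2 : (Submodule.span k {b : AR ρ W | ∃ (h : Γ) (hh : h ∈ H), b = rr ρ W ⟨h, hHW hh⟩}).map
      vl = Submodule.span k (toEnd ρ '' H) := by
    rw [Submodule.map_span]
    congr 1
    ext y
    constructor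
    · rintro ⟨_, ⟨h, hh, rfl⟩, rfl⟩
      exact ⟨h, hh, rfl⟩
    · rintro ⟨h, hh, rfl⟩
      exact ⟨_, ⟨h, hh, rfl⟩, rfl⟩
  rw [← h2] at h1
  obtain ⟨b, hb, hba⟩ := h1
  have : b = a := Subtype.ext hba
  rw [← this]
  exact hb

/-- the main theorem for compact groups -/
theorem main_of (hρ : Continuous ρ) (hss : Semisimple ρ) {N : ℕ} (hN : 0 < N) (Z : Set Γ)
    (hZ : ∀ g ∈ Z, (toEnd ρ g ^ N - 1) ^ n = 0)
    (hpos : ∀ (W : Subgroup Γ) [W.Normal], IsOpen (W : Set Γ) → ∀ S : Submodule (AR ρ W) (Fin n → k),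
      IsSimpleModule (AR ρ W) S → μ (Z ∩ (stab (cr ρ W) S : Set Γ)) ≠ 0) :
    ∃ H : Subgroup Γ, IsOpen (H : Set Γ) ∧ ∀ h ∈ H, ρ h = 1 := by
  classical
  obtain ⟨W, hWn, hWo, hmin⟩ := exists_minimal ρ
  haveI := hWn
  -- the smooth vectors
  let sm : Submodule k (Fin n → k) :=
    { carrier := {v | ∃ H : Subgroup Γ, IsOpen (H : Set Γ) ∧ ∀ h ∈ H, toEnd ρ h v = v}
      add_mem' := by
        rintro a b ⟨H, hH, ha⟩ ⟨H', hH', hb⟩
        refine ⟨H ⊓ H', hH.inter hH', fun h hh => ?_⟩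
        rw [map_add, ha h hh.1, hb h hh.2]
      zero_mem' := ⟨⊤, isOpen_univ, fun h _ => map_zero _⟩
      smul_mem' := by
        rintro x a ⟨H, hH, ha⟩
        refine ⟨H, hH, fun h hh => ?_⟩
        rw [map_smul, ha h hh] }
  have hsm : ∀ v, v ∈ sm ↔ ∃ H : Subgroup Γ, IsOpen (H : Set Γ) ∧ ∀ h ∈ H, toEnd ρ h v = v := fun v => Iff.rfl
  have hstable : Stable ρ sm := by
    rintro g v ⟨H, hH, hv⟩
    refine ⟨H.map (MulAut.conj g).toMonoidHom, ?_, ?_⟩
    · have e : ((H.map (MulAut.conj g).toMonoidHom : Subgroup Γ) : Set Γ) = (fun x => g⁻¹ * x * g) ⁻¹' (H : Set Γ) := by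
        ext x
        constructor
        · rintro ⟨y, hy, rfl⟩
          show g⁻¹ * (g * y * g⁻¹) * g ∈ H
          have : g⁻¹ * (g * y * g⁻¹) * g = y := by group
          rw [this]
          exact hy
        · intro hx
          refine ⟨g⁻¹ * x * g, hx, ?_⟩
          show g * (g⁻¹ * x * g) * g⁻¹ = x
          group
      rw [e]
      exact hH.preimage (by fun_prop)
    · rintro _ ⟨y, hy, rfl⟩
      rw [← toEnd_apply]
      show toEnd ρ (g * y * g⁻¹) (toEnd ρ g v) = toEnd ρ g v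
      have h1 : toEnd ρ (g * y * g⁻¹) (toEnd ρ g v) = (toEnd ρ (g * y * g⁻¹) * toEnd ρ g) v := rfl
      rw [h1, ← map_mul]
      have h2 : g * y * g⁻¹ * g = g * y := by group
      rw [h2, map_mul, Module.End.mul_apply, hv y hy]
  obtain ⟨V', hV', hcompl⟩ := hss sm hstable
  have hVbot : V' = ⊥ := by
    by_contra hne
    -- as a submodule over the algebra
    have hst : ∀ a ∈ algOn ρ W, ∀ v ∈ V', a v ∈ V' := by
      intro a ha
      refine Algebra.adjoin_induction (p := fun a _ => ∀ v ∈ V', a v ∈ V') ?_ ?_ ?_ ?_ ha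
      · rintro _ ⟨w, hw, rfl⟩ v hv
        rw [toEnd_apply]
        exact hV' w v hv
      · intro r v hv
        rw [Module.algebraMap_end_apply]
        exact V'.smul_mem r hv
      · intro x y _ _ hx hy v hv
        exact V'.add_mem (hx v hv) (hy v hv)
      · intro x y _ _ hx hy v hv
        exact hx _ (hy v hv)
    let VR : Submodule (AR ρ W) (Fin n → k) :=
      { carrier := V'
        add_mem' := fun h1 h2 => V'.add_mem h1 h2
        zero_mem' := V'.zero_mem
        smul_mem' := fun a v hv => hst (val ρ a) (val_mem ρ a) v hv }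
    haveI : IsArtinian (AR ρ W) (Fin n → k) := isArtinian_of_tower k inferInstance
    rcases eq_bot_or_exists_atom_le VR with h0 | ⟨S, hS, hSV⟩
    · apply hne
      rw [eq_bot_iff]
      intro v hv
      have : v ∈ VR := hv
      rw [h0] at this
      exact this
    · haveI : IsSimpleModule (AR ρ W) S := isSimpleModule_iff_isAtom.2 hS
      obtain ⟨H, hH, hfix⟩ := fix_simple ρ μ hρ hN Z hZ W hWo hmin S (hpos W hWo S inferInstance)
      apply hS.1
      rw [eq_bot_iff]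
      intro s hs
      have h1 : s ∈ sm := ⟨H, hH, fun h hh => hfix h hh s hs⟩
      have h2 : s ∈ V' := hSV hs
      have h3 := (Submodule.disjoint_def.1 hcompl.disjoint) s h1 h2
      exact h3
  have htop : sm = ⊤ := by
    have := hcompl.sup_eq_top
    rwa [hVbot, sup_bot_eq] at this
  have hb : ∀ i : Fin n, ∃ H : Subgroup Γ, IsOpen (H : Set Γ) ∧ ∀ h ∈ H,
      toEnd ρ h (Pi.single i 1 : Fin n → k) = Pi.single i 1 := by
    intro i
    have : (Pi.single i 1 : Fin n → k) ∈ sm := by rw [htop]; trivial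
    exact this
  choose H hHo hH using hb
  refine ⟨⨅ i, H i, ?_, fun h hh => ?_⟩
  · rw [Subgroup.coe_iInf]
    exact isOpen_iInter_of_finite hHo
  · have h1 : toEnd ρ h = 1 := by
      refine LinearMap.pi_ext' fun i => ?_
      ext
      have h2 := hH i h ((Subgroup.mem_iInf.1 hh) i)
      simpa using congrFun h2 _
    apply Units.ext
    apply Matrix.toLin'.injective
    rw [Units.val_one, Matrix.toLin'_one]
    exact h1

/-- **Optimal bound.** -/
theorem main_card (hρ : Continuous ρ) (hss : Semisimple ρ) {N : ℕ} (hN : 0 < N) (Z : Set Γ)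
    (hZ : ∀ g ∈ Z, (toEnd ρ g ^ N - 1) ^ n = 0) (hZm : MeasurableSet Z)
    (hμ : (1 - μ.real Z) * n < 1) :
    ∃ H : Subgroup Γ, IsOpen (H : Set Γ) ∧ ∀ h ∈ H, ρ h = 1 := by
  classical
  refine main_of ρ μ hρ hss hN Z hZ fun W hWn hWo S hS => ?_
  have hle : W ≤ stab (cr ρ W) S := fun w hw =>
    mem_stab (TT ρ) (cr ρ W) (TT_smul ρ W) S w (rr ρ W ⟨w, hw⟩) (rr ρ W ⟨w⁻¹, W.inv_mem hw⟩)
      (fun v => rfl) (fun v => rfl)
  set H := stab (cr ρ W) S with hH
  have hHo : IsOpen (H : Set Γ) := Subgroup.isOpen_mono hle hWo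
  haveI : Finite (Γ ⧸ H) := Subgroup.quotient_finite_of_isOpen _ hHo
  have hcard : Nat.card (Γ ⧸ H) ≤ n := by
    have := card_le (TT ρ) (cr ρ W) (TT_smul ρ W) S
    rwa [finrank_fin_fun] at this
  -- the measure of the stabiliser
  have hmeas : 1 ≤ (Nat.card (Γ ⧸ H) : ℝ) * μ.real H := by
    have h1 : μ.real (Set.univ : Set Γ) ≤ ∑ᶠ q : Γ ⧸ H, μ.real {x | (QuotientGroup.mk x : Γ ⧸ H) = q} := by
      haveI := Fintype.ofFinite (Γ ⧸ H)
      rw [finsum_eq_sum_of_fintype]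
      have e : (Set.univ : Set Γ) = ⋃ q ∈ (Finset.univ : Finset (Γ ⧸ H)), {x | (QuotientGroup.mk x : Γ ⧸ H) = q} := by
        ext x
        simp
      rw [e]
      exact measureReal_biUnion_finset_le _ _
    have h2 : ∀ q : Γ ⧸ H, μ.real {x | (QuotientGroup.mk x : Γ ⧸ H) = q} = μ.real H := by
      intro q
      have e : (fun x => q.out * x) ⁻¹' {x | (QuotientGroup.mk x : Γ ⧸ H) = q} = H := by
        ext x
        rw [Set.mem_preimage]
        show (QuotientGroup.mk (q.out * x) : Γ ⧸ H) = q ↔ x ∈ H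
        constructor
        · intro h
          have h2 : (QuotientGroup.mk q.out : Γ ⧸ H) = QuotientGroup.mk (q.out * x) := by
            rw [QuotientGroup.out_eq', h]
          have h3 := QuotientGroup.eq.1 h2
          rwa [inv_mul_cancel_left] at h3
        · intro h
          conv_rhs => rw [← QuotientGroup.out_eq' q]
          rw [eq_comm, QuotientGroup.eq, inv_mul_cancel_left]
          exact h
      rw [measureReal_def, measureReal_def, ← e, measure_preimage_mul]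
    have h3 : ∑ᶠ q : Γ ⧸ H, μ.real {x | (QuotientGroup.mk x : Γ ⧸ H) = q} = (Nat.card (Γ ⧸ H) : ℝ) * μ.real H := by
      haveI := Fintype.ofFinite (Γ ⧸ H)
      rw [finsum_eq_sum_of_fintype, Finset.sum_congr rfl fun q _ => h2 q, Finset.sum_const, nsmul_eq_mul,
        Finset.card_univ, Nat.card_eq_fintype_card]
    rw [h3, probReal_univ] at h1
    exact h1
  intro h0
  -- the sets are disjoint up to measure zero
  have h1 : μ.real (Z ∪ H) + μ.real (Z ∩ H) = μ.real Z + μ.real H :=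
    measureReal_union_add_inter (hHo.measurableSet) 
  have h2 : μ.real (Z ∩ H) = 0 := by
    rw [measureReal_def, h0]
    rfl
  have h3 : μ.real (Z ∪ H) ≤ 1 := measureReal_le_one
  have h4 : μ.real H ≤ 1 - μ.real Z := by linarith
  have hH0 : 0 ≤ μ.real H := measureReal_nonneg
  have h5 : (Nat.card (Γ ⧸ H) : ℝ) ≤ n := by exact_mod_cast hcard
  have h6 : (1 : ℝ) ≤ n * μ.real H := hmeas.trans (mul_le_mul_of_nonneg_right h5 hH0)
  have h7 : (n : ℝ) * μ.real H ≤ n * (1 - μ.real Z) := mul_le_mul_of_nonneg_left h4 (Nat.cast_nonneg _)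
  linarith

end Pool.Agent.X320.RU
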