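import Pool.Agent.X320.RU.Main

/-! Roots of unity among the eigenvalues of a compact group of matrices over `PadicAlgCl ℓ`. -/

set_option autoImplicit false
set_option linter.all false

namespace Pool.Agent.X320.RU

open Module Polynomial Topology Pool.Agent.X320.DS

section norm

variable {ℓ : ℕ} [Fact ℓ.Prime]

theorem norm_pow_sub_one {ζ : PadicAlgCl ℓ} (h1 : ‖ζ‖ ≤ 1) (j : ℕ) : ‖ζ ^ j - 1‖ ≤ ‖ζ - 1‖ := by
  induction j with
  | zero => simp
  | succ j ih =>
    have e : ζ ^ (j + 1) - 1 = ζ * (ζ ^ j - 1) + (ζ - 1) := by ring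
    rw [e]
    refine (IsUltrametricDist.norm_add_le_max _ _).trans (max_le ?_ le_rfl)
    rw [norm_mul]
    calc ‖ζ‖ * ‖ζ ^ j - 1‖ ≤ 1 * ‖ζ - 1‖ := mul_le_mul h1 ih (norm_nonneg _) zero_le_one
      _ = ‖ζ - 1‖ := one_mul _

theorem norm_prime {p : ℕ} (hp : p.Prime) : (ℓ : ℝ)⁻¹ ≤ ‖(p : PadicAlgCl ℓ)‖ := by
  have h1 : ‖(p : PadicAlgCl ℓ)‖ = ‖(p : ℚ_[ℓ])‖ := by
    rw [← PadicAlgCl.norm_extends]
    exact congrArg _ (map_natCast (algebraMap ℚ_[ℓ] (PadicAlgCl ℓ)) p).symm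
  rw [h1]
  have hℓ : ℓ.Prime := Fact.out
  rcases eq_or_ne p ℓ with rfl | hne
  · rw [Padic.norm_p]
  · have h2 : ‖(p : ℚ_[ℓ])‖ = 1 := by
      have h3 : ¬ ‖((p : ℤ) : ℚ_[ℓ])‖ < 1 := by
        rw [Padic.norm_intCast_lt_one_iff]
        intro h
        have : ℓ ∣ p := by exact_mod_cast h
        exact hne ((Nat.prime_dvd_prime_iff_eq hℓ hp).1 this).symm
      have h4 := Padic.norm_int_le_one (p := ℓ) (p : ℤ)
      have h5 := le_antisymm h4 (not_lt.1 h3)
      simpa using h5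
    rw [h2]
    exact inv_le_one_of_one_le₀ (by exact_mod_cast hℓ.one_le)

/-- a root of unity which is close to one is one -/
theorem close_one {ζ : PadicAlgCl ℓ} {m : ℕ} (hm : 0 < m) (h : ζ ^ m = 1) (hc : ‖ζ - 1‖ < (ℓ : ℝ)⁻¹) : ζ = 1 := by
  by_contra hne
  have hfin : IsOfFinOrder ζ := isOfFinOrder_iff_pow_eq_one.2 ⟨m, hm, h⟩
  have hpos : 0 < orderOf ζ := hfin.orderOf_pos
  have hd : orderOf ζ ≠ 1 := fun h1 => hne (orderOf_eq_one_iff.1 h1)
  obtain ⟨p, hp, e, he⟩ := Nat.exists_prime_and_dvd hd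
  set ξ := ζ ^ e with hξ
  have hξp : ξ ^ p = 1 := by
    rw [hξ, ← pow_mul, mul_comm, ← he, pow_orderOf_eq_one]
  have hξ1 : ξ ≠ 1 := by
    intro h1
    have h2 := orderOf_dvd_of_pow_eq_one h1
    rw [he] at h2
    have he0 : 0 < e := Nat.pos_of_ne_zero (by rintro rfl; rw [mul_zero] at he; omega)
    have h3 := Nat.le_of_dvd he0 h2
    have := hp.two_le
    nlinarith
  have hnorm : ‖ζ‖ = 1 := by
    have h1 : ‖ζ‖ ^ m = 1 := by rw [← norm_pow, h, norm_one]
    exact (pow_eq_one_iff_of_nonneg (norm_nonneg _) hm.ne').1 h1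
  have hsum : ∑ i ∈ Finset.range p, ξ ^ i = 0 := by
    have h1 := geom_sum_mul ξ p
    rw [hξp, sub_self] at h1
    exact (mul_eq_zero.1 h1).resolve_right (sub_ne_zero.2 hξ1)
  have h1 : (p : PadicAlgCl ℓ) = ∑ i ∈ Finset.range p, (1 - ξ ^ i) := by
    rw [Finset.sum_sub_distrib, hsum, sub_zero, Finset.sum_const, Finset.card_range, nsmul_eq_mul, mul_one]
  have h2 : ‖(p : PadicAlgCl ℓ)‖ ≤ ‖ζ - 1‖ := by
    rw [h1]
    refine IsUltrametricDist.norm_sum_le_of_forall_le_of_nonneg (norm_nonneg _) fun i _ => ?_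
    rw [norm_sub_rev, hξ, ← pow_mul]
    exact norm_pow_sub_one hnorm.le _
  exact absurd (hc.trans_le ((norm_prime hp).trans h2)) (lt_irrefl _)

/-- eigenvalues of a matrix which is close to one -/
theorem eigen_close {n : ℕ} {M : Matrix (Fin n) (Fin n) (PadicAlgCl ℓ)} {c : ℝ} (hc : ∀ i j, ‖(M - 1) i j‖ < c)
    {a : PadicAlgCl ℓ} {v : Fin n → PadicAlgCl ℓ} (hv : v ≠ 0) (h : M.mulVec v = a • v) : ‖a - 1‖ < c := by
  have hn : Nonempty (Fin n) := by
    by_contra hcon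
    rw [not_nonempty_iff] at hcon
    exact hv (Subsingleton.elim _ _)
  obtain ⟨i, hi⟩ := Finite.exists_max (fun i => ‖v i‖)
  have hvi : 0 < ‖v i‖ := by
    by_contra hcon
    apply hv
    funext j
    have h1 := (hi j).trans (not_lt.1 hcon)
    exact norm_le_zero_iff.1 h1
  have h1 : (a - 1) * v i = ∑ j, (M - 1) i j * v j := by
    have h2 : (M - 1).mulVec v = (a - 1) • v := by
      rw [Matrix.sub_mulVec, Matrix.one_mulVec, h, sub_smul, one_smul]
    have h3 := congrFun h2 i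
    rw [Pi.smul_apply, smul_eq_mul] at h3
    rw [← h3]
    rfl
  -- the largest entry
  obtain ⟨j, hj⟩ := Finite.exists_max (fun j => ‖(M - 1) i j‖)
  have h2 : ‖(a - 1) * v i‖ ≤ ‖(M - 1) i j‖ * ‖v i‖ := by
    rw [h1]
    refine IsUltrametricDist.norm_sum_le_of_forall_le_of_nonneg (by positivity) fun l _ => ?_
    rw [norm_mul]
    exact mul_le_mul (hj l) (hi l) (norm_nonneg _) (norm_nonneg _)
  rw [norm_mul] at h2
  exact (le_of_mul_le_mul_right h2 hvi).trans_lt (hc i j)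

end norm

section group

variable {Γ : Type*} [Group Γ] [TopologicalSpace Γ] [IsTopologicalGroup Γ] [CompactSpace Γ] [T2Space Γ]
  [TotallyDisconnectedSpace Γ] {ℓ : ℕ} [Fact ℓ.Prime] {n : ℕ} (ρ : Γ →* GL (Fin n) (PadicAlgCl ℓ))

/-- a bound for the orders of the roots of unity among the eigenvalues -/
theorem exists_exponent (hρ : Continuous ρ) : ∃ N : ℕ, 0 < N ∧ ∀ g, ∀ a : PadicAlgCl ℓ,
    (ρ g : Matrix (Fin n) (Fin n) (PadicAlgCl ℓ)).charpoly.IsRoot a → (∃ m : ℕ, 0 < m ∧ a ^ m = 1) → a ^ N = 1 := by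
  have hopen : IsOpen {g : Γ | ∀ i j, ‖((ρ g : Matrix (Fin n) (Fin n) (PadicAlgCl ℓ)) - 1) i j‖ < (ℓ : ℝ)⁻¹} := by
    have e : {g : Γ | ∀ i j, ‖((ρ g : Matrix (Fin n) (Fin n) (PadicAlgCl ℓ)) - 1) i j‖ < (ℓ : ℝ)⁻¹} =
        ⋂ i, ⋂ j, {g : Γ | ‖((ρ g : Matrix (Fin n) (Fin n) (PadicAlgCl ℓ)) - 1) i j‖ < (ℓ : ℝ)⁻¹} := by
      ext g
      simp
    rw [e]
    refine isOpen_iInter_of_finite fun i => isOpen_iInter_of_finite fun j => ?_
    have h1 : Continuous fun g : Γ => ((ρ g : Matrix (Fin n) (Fin n) (PadicAlgCl ℓ)) - 1) i j := by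
      have h2 : Continuous fun g : Γ => (ρ g : Matrix (Fin n) (Fin n) (PadicAlgCl ℓ)) :=
        Units.continuous_val.comp hρ
      exact (h2.sub continuous_const).matrix_elem i j
    exact isOpen_lt h1.norm continuous_const
  have hℓ : (0 : ℝ) < (ℓ : ℝ)⁻¹ := by
    have : (0 : ℝ) < ℓ := by exact_mod_cast (Fact.out : ℓ.Prime).pos
    positivity
  have hone : (1 : Γ) ∈ {g : Γ | ∀ i j, ‖((ρ g : Matrix (Fin n) (Fin n) (PadicAlgCl ℓ)) - 1) i j‖ < (ℓ : ℝ)⁻¹} := by
    intro i j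
    rw [map_one, Units.val_one, sub_self, Matrix.zero_apply, norm_zero]
    exact hℓ
  obtain ⟨U, hU⟩ := ProfiniteGrp.exist_openNormalSubgroup_sub_open_nhds_of_one hopen hone
  haveI : Finite (Γ ⧸ U.toSubgroup) := Subgroup.quotient_finite_of_isOpen _ U.isOpen'
  haveI : U.toSubgroup.Normal := U.isNormal'
  refine ⟨U.toSubgroup.index, Nat.pos_of_ne_zero Subgroup.index_ne_zero_of_finite, fun g a ha hm => ?_⟩
  obtain ⟨m, hm, ham⟩ := hm
  have hgN : g ^ U.toSubgroup.index ∈ U.toSubgroup := Subgroup.pow_index_mem _ g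
  have h1 : (LinearMap.charpoly (toEnd ρ g)).IsRoot a := by
    have e : LinearMap.charpoly (toEnd ρ g) = (ρ g : Matrix (Fin n) (Fin n) (PadicAlgCl ℓ)).charpoly :=
      Matrix.charpoly_toLin' _
    rw [e]
    exact ha
  rw [← Module.End.hasEigenvalue_iff_isRoot_charpoly] at h1
  obtain ⟨v, hv⟩ := h1.exists_hasEigenvector
  have h2 : ∀ j : ℕ, toEnd ρ (g ^ j) v = a ^ j • v := by
    intro j
    induction j with
    | zero => rw [pow_zero, pow_zero, map_one, one_smul]; rfl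
    | succ j ih =>
      rw [pow_succ, map_mul, Module.End.mul_apply, hv.apply_eq_smul, map_smul, ih, smul_smul, pow_succ, mul_comm]
  have h3 := h2 U.toSubgroup.index
  rw [toEnd_apply] at h3
  have h4 := eigen_close (hU hgN) hv.2 h3
  refine close_one hm ?_ h4
  rw [← pow_mul, mul_comm, pow_mul, ham, one_pow]

theorem unipotent_of {M : Matrix (Fin n) (Fin n) (PadicAlgCl ℓ)} {N : ℕ}
    (h : ∀ a : PadicAlgCl ℓ, M.charpoly.IsRoot a → a ^ N = 1) : (M.toLin' ^ N - 1) ^ n = 0 := by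
  have h1 : M.charpoly ∣ (X ^ N - 1 : (PadicAlgCl ℓ)[X]) ^ n := by
    have hs : M.charpoly.Splits := IsAlgClosed.splits _
    have h2 := hs.eq_prod_roots_of_monic M.charpoly_monic
    have hcard : Multiset.card M.charpoly.roots = n := by
      rw [splits_iff_card_roots.1 hs, Matrix.charpoly_natDegree_eq_dim, Fintype.card_fin]
    rw [h2]
    have h3 : (M.charpoly.roots.map fun a => (X - C a : (PadicAlgCl ℓ)[X])).prod ∣
        (M.charpoly.roots.map fun _ => (X ^ N - 1 : (PadicAlgCl ℓ)[X])).prod := by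
      refine Multiset.prod_dvd_prod_of_dvd _ _ fun a ha => ?_
      rw [dvd_iff_isRoot, IsRoot, eval_sub, eval_pow, eval_X, eval_one, sub_eq_zero]
      exact h a (isRoot_of_mem_roots ha)
    rwa [Multiset.map_const', Multiset.prod_replicate, hcard] at h3
  obtain ⟨q, hq⟩ := h1
  have h4 : aeval M.toLin' M.charpoly = 0 := by
    rw [← Matrix.charpoly_toLin']
    exact LinearMap.aeval_self_charpoly _
  have h5 := congrArg (aeval M.toLin') hq
  rw [map_mul, h4, zero_mul, map_pow, map_sub, map_pow, aeval_X, map_one] at h5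
  exact h5

end group

/-! ### Kronecker -/

section kron

/-- the number `a` is an algebraic integer all of whose complex conjugates have absolute value at most one -/
def IntBounded {k : Type*} [Field k] (a : k) : Prop :=
  IsIntegral ℤ a ∧ ∀ z : ℂ, aeval z (minpoly ℤ a) = 0 → ‖z‖ ≤ 1

theorem kronecker {k : Type*} [Field k] [CharZero k] {a : k} (h0 : a ≠ 0) (h : IntBounded a) :
    ∃ m : ℕ, 0 < m ∧ a ^ m = 1 := by
  obtain ⟨h1, h2⟩ := h
  have hq : IsIntegral ℚ a := h1.tower_top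
  haveI := IntermediateField.adjoin.finiteDimensional hq
  let L := IntermediateField.adjoin ℚ {a}
  haveI : NumberField L := { to_charZero := inferInstance, to_finiteDimensional := inferInstance }
  let x : L := IntermediateField.AdjoinSimple.gen ℚ a
  have hx : (x : k) = a := IntermediateField.AdjoinSimple.coe_gen ℚ a
  have hinj : Function.Injective (algebraMap L k) := (algebraMap L k).injective
  have hx0 : x ≠ 0 := by
    intro h
    apply h0
    rw [← hx, h]
    rfl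
  have hxi : IsIntegral ℤ x := by
    rw [← isIntegral_algebraMap_iff hinj]
    exact h1
  have hev : aeval x (minpoly ℤ a) = 0 := by
    apply hinj
    rw [map_zero, ← aeval_algebraMap_apply]
    exact minpoly.aeval ℤ a
  obtain ⟨m, hm, hxm⟩ := NumberField.Embeddings.pow_eq_one_of_norm_le_one L ℂ hx0 hxi (fun φ => by
    apply h2
    have h3 : aeval (φ x) (minpoly ℤ a) = φ (aeval x (minpoly ℤ a)) := by
      have := Polynomial.aeval_algHom_apply φ.toIntAlgHom x (minpoly ℤ a)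
      exact this
    rw [h3, hev, map_zero])
  refine ⟨m, hm, ?_⟩
  rw [← hx]
  have := congrArg (algebraMap L k) hxm
  rwa [map_pow, map_one] at this

end kron

end Pool.Agent.X320.RU
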